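import Pool.Agent.RBH.ApM

/-!
# RBH/ApI: injectivity and covering for the new maps   (difficulty 3)

`p` not on the new torus is of one of two types (`new_cases`): (Z) there is `p°` not on the old torus, in `BoxS b` or in `Tube κ`, with `A' p = Γ (D.A p°)`, and `p = b' a`, `p° = b a` or `p = κ' (l, v, t)`, `p° = κ (l, v, t)`;
(N) `p ∉ BoxS b'`, `p ∉ Tube κ'`, `A' p = Jt (G.symm p)`.
* `pull_inj`: two points `p, p'` of type (Z) with `p° = p'°` are equal (`box.inj`, `thick.inj`, `win_eq` in the mixed case, periods).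
* `Ap_inj`: both (Z): `Gm_inj`, `D.A_inj`, `pull_inj`.  Both (N): `Jt_inj` (`good_new`), `G` is injective.  (Z) and (N): `Gm_Jt` with `q = G.symm p'` (`q = G.symm (b' a)` would give `p' = b' a ∈ BoxS b'`).
* `Ap_disj`: `c1 z = 0 ∨ c2 z = 0`: `Γ (D.Q z) ≠ A' p`: (Z): `Gm_inj` and `D.disj`.  (N): `Gm_Jt`.
* `Ap_cover`: `x : X`.  Case 1: `x = Jt q` with `q ∈ Good`.  Let `p = G q`.
  - `p ∉ BoxS b'`, `p ∉ Tube κ'`: `x = A' p` (`Ap_out`), and `p` is not on the new torus (`torus_tube`).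
  - `p ∉ BoxS b'`, `p = κ' (l, v, t)`: `Rest l` (`bk_tube`), `q = κ (l, v, t)` (`G_rest`, `G` injective), which is in `Tube κ` and not in `BoxS b` (`rest_box`): not in `Good` (if `q = b a` it is in `BoxS b`), contradiction.
  - `p = b' a`, `a = (z, s, t)`.  If `3/4 ≤ |s|`: `q = b a` (`g_mid`), contradiction to `q ∈ Good` (`box.inj`).  If `|s| < 3/4` and `a ∉ DomJ`: `q = b a` (`g_hole`), contradiction (`box.inj`, `frc_add_int`).  So `a ∈ DomJ`, `x = Jt (G.symm (b' a)) = Γ (Jm a)` (`Gm_img`).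
    `Jm a` is `D.A p₁` with `p₁ ∈ BoxS b` not on the torus, or `D.Q w`: if `3 ≤ ‖z‖`: `Jm_out`, otherwise `Jm_inn`.  In the first case `p₁ = b a₁`, `x = Γ (D.A (b a₁)) = A' (b' a₁)` (`Ap_box`, `box_new`); in the second `x = Γ (D.Q w)`.
  Case 2: `x ≠ Jt q` for all `q ∈ Good`.  Then `x` is not `IsJ` (`Jt_box`), so `Γ x = x`.  `D.cover x`: `x = D.Q w = Γ (D.Q w)`; or `x = D.A p₀`, `p₀` not on the torus: if `p₀ = b a₀ ∈ BoxS b`: `x = Γ (D.A (b a₀)) = A' (b' a₀)`; if `p₀ = κ (l, v, t) ∈ Tube κ`: `x = A' (κ' (l, v, t))`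
  (`Ap_tube`; not on the new torus: `v ≠ 0`, `kap_not`); otherwise `p₀ ∈ Good`, `Jt p₀ = D.A p₀ = x` (`Jt_out`), contradiction.
-/

open scoped Manifold ContDiff Topology
open Set Filter
open Complex (I)
open Pool.Agent.RSG (E4 S4 ex cj c1 c2 ht fh Vx)
open Pool.Agent.RBM

namespace Pool.Agent.RBH

variable {E : Type*} [NormedAddCommGroup E] [NormedSpace ℝ E] {H : Type*} [TopologicalSpace H]
  {J : ModelWithCorners ℝ E H}
  {P : Type*} [TopologicalSpace P] [ChartedSpace H P] {κ κ' : ℝ × ℂ × ℝ → P} {b b' : ℂ × ℝ × ℝ → P}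
  {X : Type*} [TopologicalSpace X] [ChartedSpace E4 X] {n j : ℤ} {ε₁ ε₂ σ δ : ℝ} {τ : ℝ → ℝ}
  {G : Equiv.Perm P}

/-- `q` is the old point of the new point `p` -/
def ApI_Rel (κ κ' : ℝ × ℂ × ℝ → P) (b b' : ℂ × ℝ × ℝ → P) (q p : P) : Prop :=
  (∃ (z : ℂ) (s t : ℝ), ‖z‖ < 4 ∧ |s| < 1 ∧ p = b' (z, s, t) ∧ q = b (z, s, t)) ∨
    ∃ (l : ℝ) (v : ℂ) (t : ℝ), ‖v‖ < 1 ∧ p = κ' (l, v, t) ∧ q = κ (l, v, t)

theorem ApI_mem {q p : P} (h : ApI_Rel κ κ' b b' q p) : q ∈ BoxS b ∨ q ∈ Tube κ := by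
  rcases h with ⟨z, s, t, hz, hs, _, e⟩ | ⟨l, v, t, hv, _, e⟩
  · exact Or.inl ⟨z, s, t, hz, hs, e⟩
  · exact Or.inr ⟨l, v, t, hv, e⟩

theorem ApI_cases (D : TwinP J κ n j X) (h : RibHom J κ κ' b b' ε₁ ε₂ τ δ G) (σ : ℝ)
    {p : P} (hp : ¬ OnT κ' p) :
    (∃ q, ¬ OnT κ q ∧ ApI_Rel κ κ' b b' q p ∧
      Ap D κ' b b' ε₁ ε₂ σ τ δ G p = Gm D b b' ε₁ ε₂ σ τ δ G (D.A q)) ∨
    (p ∉ BoxS b' ∧ p ∉ Tube κ' ∧
      Ap D κ' b b' ε₁ ε₂ σ τ δ G p = Jt D b ε₁ ε₂ σ τ (G.symm p)) := by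
  by_cases h1 : p ∈ BoxS b'
  · obtain ⟨z, s, t, hz, hs, rfl⟩ := h1
    left
    refine ⟨b (z, s, t), ?_, Or.inl ⟨z, s, t, hz, hs, rfl, rfl⟩, Ap_box D h σ t hz hs⟩
    rwa [← box_new h.bun h.bun' hz hs]
  · by_cases h2 : p ∈ Tube κ'
    · obtain ⟨l, v, t, hv, rfl⟩ := h2
      left
      have hv0 : v ≠ 0 := by
        rintro rfl
        exact hp ⟨l, t, rfl⟩
      exact ⟨κ (l, v, t), kap_not h.bun.thick t hv0 hv, Or.inr ⟨l, v, t, hv, rfl, rfl⟩,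
        Ap_tube D h σ t hv⟩
    · exact Or.inr ⟨h1, h2, Ap_out D κ' b b' ε₁ ε₂ σ τ δ G h1 h2⟩

theorem ApI_pull (h : RibHom J κ κ' b b' ε₁ ε₂ τ δ G) {q p p' : P}
    (h1 : ApI_Rel κ κ' b b' q p) (h2 : ApI_Rel κ κ' b b' q p') : p = p' := by
  rcases h1 with ⟨z, s, t, hz, hs, rfl, rfl⟩ | ⟨l, v, t, hv, rfl, rfl⟩
  · rcases h2 with ⟨z', s', t', hz', hs', rfl, e⟩ | ⟨l', v', t', hv', rfl, e⟩
    · obtain ⟨rfl, rfl, m, rfl⟩ := h.bun.box.inj _ _ _ _ _ _ hz hs hz' hs' e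
      exact (box_int h.bun'.box z s t m).symm
    · exact ((win_eq h.bun h.bun' hv' hz hs).1 e.symm).symm
  · rcases h2 with ⟨z', s', t', hz', hs', rfl, e⟩ | ⟨l', v', t', hv', rfl, e⟩
    · exact (win_eq h.bun h.bun' hv hz' hs').1 e
    · obtain ⟨rfl, ⟨m, rfl⟩, m', rfl⟩ := h.bun.thick.inj _ _ _ _ _ _ hv hv' e
      exact (kap_int h.bun'.thick l v t m m').symm

theorem ApI_ne {a : ℂ × ℝ × ℝ} {p : P} (h1 : p ∉ BoxS b') (ha : a ∈ DomJ τ δ) :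
    G.symm p ≠ G.symm (b' a) := by
  intro e
  have e2 := G.symm.injective e
  exact h1 ⟨a.1, a.2.1, a.2.2, ha.1, ha.2.1, e2⟩

theorem Ap_inj (D : TwinP J κ n j X) (h : RibHom J κ κ' b b' ε₁ ε₂ τ δ G) (hσ : DiscOK D b ε₁ ε₂ σ)
    {p p' : P} (hp : ¬ OnT κ' p) (hp' : ¬ OnT κ' p')
    (he : Ap D κ' b b' ε₁ ε₂ σ τ δ G p = Ap D κ' b b' ε₁ ε₂ σ τ δ G p') : p = p' := by
  rcases ApI_cases D h σ hp with ⟨q, hq, hr, e⟩ | ⟨h1, h2, e⟩
  · rcases ApI_cases D h σ hp' with ⟨q', hq', hr', e'⟩ | ⟨h1', h2', e'⟩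
    · rw [e, e'] at he
      have hQ : D.A q = D.A q' := Gm_inj D h hσ (Or.inl ⟨q, hq, ApI_mem hr, rfl⟩)
        (Or.inl ⟨q', hq', ApI_mem hr', rfl⟩) he
      have hqq := D.A_inj _ _ hq hq' hQ
      subst hqq
      exact ApI_pull h hr hr'
    · rw [e, e'] at he
      exact absurd he (Gm_Jt D h hσ (Or.inl ⟨q, hq, ApI_mem hr, rfl⟩) (good_new h h1' h2')
        (fun a ha _ => ApI_ne h1' ha))
  · rcases ApI_cases D h σ hp' with ⟨q', hq', hr', e'⟩ | ⟨h1', h2', e'⟩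
    · rw [e, e'] at he
      exact absurd he.symm (Gm_Jt D h hσ (Or.inl ⟨q', hq', ApI_mem hr', rfl⟩) (good_new h h1 h2)
        (fun a ha _ => ApI_ne h1 ha))
    · rw [e, e'] at he
      exact G.symm.injective (Jt_inj D h.bun hσ τ h.pos (good_new h h1 h2) (good_new h h1' h2') he)

theorem Ap_disj (D : TwinP J κ n j X) (h : RibHom J κ κ' b b' ε₁ ε₂ τ δ G) (hσ : DiscOK D b ε₁ ε₂ σ)
    {z : S4} {p : P} (hz : fh z ≠ 0) (hc : c1 z = 0 ∨ c2 z = 0) (hp : ¬ OnT κ' p) :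
    Gm D b b' ε₁ ε₂ σ τ δ G (D.Q z) ≠ Ap D κ' b b' ε₁ ε₂ σ τ δ G p := by
  intro he
  have hO : D.Q z ∈ Old D b := Or.inr ⟨z, hz, rfl⟩
  rcases ApI_cases D h σ hp with ⟨q, hq, hr, e⟩ | ⟨h1, h2, e⟩
  · rw [e] at he
    exact D.disj z q hz hc hq (Gm_inj D h hσ hO (Or.inl ⟨q, hq, ApI_mem hr, rfl⟩) he)
  · rw [e] at he
    exact Gm_Jt D h hσ hO (good_new h h1 h2) (fun a ha _ => ApI_ne h1 ha) he

theorem ApI_old (D : TwinP J κ n j X) (h : RibHom J κ κ' b b' ε₁ ε₂ τ δ G) {z : ℂ} {s t : ℝ}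
    (hz : ‖z‖ < 4) (hs : |s| < 1) (ht : ¬ OnT κ (b (z, s, t))) (σ : ℝ) :
    ∃ p, ¬ OnT κ' p ∧ Gm D b b' ε₁ ε₂ σ τ δ G (D.A (b (z, s, t))) =
      Ap D κ' b b' ε₁ ε₂ σ τ δ G p := by
  refine ⟨b' (z, s, t), ?_, (Ap_box D h σ t hz hs).symm⟩
  rwa [box_new h.bun h.bun' hz hs]

theorem ApI_cover1 (D : TwinP J κ n j X) (h : RibHom J κ κ' b b' ε₁ ε₂ τ δ G)
    (hσ : DiscOK D b ε₁ ε₂ σ) {q : P} (hq : q ∈ Good κ b τ δ) :
    (∃ p, ¬ OnT κ' p ∧ Jt D b ε₁ ε₂ σ τ q = Ap D κ' b b' ε₁ ε₂ σ τ δ G p) ∨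
      ∃ z : S4, fh z ≠ 0 ∧ Jt D b ε₁ ε₂ σ τ q = Gm D b b' ε₁ ε₂ σ τ δ G (D.Q z) := by
  by_cases h1 : G q ∈ BoxS b'
  · obtain ⟨z, s, t, hz, hs, e⟩ := h1
    have hqe : G.symm (b' (z, s, t)) = q := by
      rw [← e]
      exact G.symm_apply_apply q
    have hbad : q = b (z, s, t) → (z, s, t) ∈ DomJ τ δ ∧ |s| < 3 / 4 := by
      intro hqb
      rcases hq with ⟨⟨z', s', t'⟩, ha', hs', hq'⟩ | ⟨_, hq'⟩
      · rw [hqb] at hq'
        obtain ⟨rfl, rfl, m, rfl⟩ := h.bun.box.inj _ _ _ _ _ _ hz hs ha'.1 ha'.2.1 hq'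
        refine ⟨⟨hz, hs, fun h3 => ?_⟩, hs'⟩
        have h4 := ha'.2.2 h3
        simp only at h4 ⊢
        have h5 := frc_add_int (t - τ s) m
        rw [show t + (m : ℝ) - τ s = t - τ s + m by ring, h5] at h4
        exact h4
      · exact absurd ⟨z, s, t, hz, hs, hqb⟩ hq'
    have hs34 : |s| < 3 / 4 := by
      by_contra hc
      push Not at hc
      have := (hbad (by rw [← hqe]; exact g_mid h hz (by linarith) hs)).2
      linarith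
    have hdom : (z, s, t) ∈ DomJ τ δ := by
      by_contra hc
      have h3 : ‖z‖ ≤ 3 ∧ 1 / 2 - δ ≤ |frc (t - τ s)| := by
        by_contra h4
        apply hc
        refine ⟨hz, hs, fun h5 => ?_⟩
        by_contra h6
        exact h4 ⟨h5, not_lt.mp h6⟩
      have hpos := h.pos
      exact hc (hbad (by rw [← hqe]; exact g_hole h (by linarith [h3.1]) hs (by linarith [h3.2]))).1
    have hx := Gm_img D h hσ hdom hs34
    rw [hqe] at hx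
    rw [← hx]
    rcases le_or_gt 3 ‖z‖ with h3 | h3
    · left
      rw [Jm_out D b ε₁ ε₂ σ τ (a := (z, s, t)) h3]
      refine ApI_old D h hz hs ?_ σ
      rw [box_torus h.bun hz hs]
      exact not_or.mpr (JmB_ne (by linarith))
    · rcases Jm_inn D h.bun hσ τ t h3 hs with ⟨z', s', t', hz', hs', hn, hx'⟩ | ⟨w, hw, hx'⟩
      · left
        rw [hx']
        exact ApI_old D h (by linarith) hs' hn σ
      · right
        exact ⟨w, hw, by rw [hx']⟩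
  · by_cases h2 : G q ∈ Tube κ'
    · exfalso
      obtain ⟨l, v, t, hv, e⟩ := h2
      have hl : Rest l := bk_tube h.bun' hv (by rwa [← e])
      have hqe : q = κ (l, v, t) := by
        apply G.injective
        rw [e, h.G_rest l v t hv hl]
      rcases hq with ⟨a, ha, _, hq'⟩ | ⟨hq', _⟩
      · exact rest_box h.bun (t := t) hv hl ⟨a.1, a.2.1, a.2.2, ha.1, ha.2.1, by rw [← hqe]; exact hq'⟩
      · exact hq' ⟨l, v, t, hv, hqe⟩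
    · left
      refine ⟨G q, fun hT => h2 (torus_tube hT), ?_⟩
      rw [Ap_out D κ' b b' ε₁ ε₂ σ τ δ G h1 h2, G.symm_apply_apply]

theorem Ap_cover (D : TwinP J κ n j X) (h : RibHom J κ κ' b b' ε₁ ε₂ τ δ G) (hσ : DiscOK D b ε₁ ε₂ σ)
    (x : X) : (∃ p, ¬ OnT κ' p ∧ x = Ap D κ' b b' ε₁ ε₂ σ τ δ G p) ∨
      ∃ z : S4, fh z ≠ 0 ∧ x = Gm D b b' ε₁ ε₂ σ τ δ G (D.Q z) := by
  by_cases h1 : ∃ q ∈ Good κ b τ δ, x = Jt D b ε₁ ε₂ σ τ q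
  · obtain ⟨q, hq, rfl⟩ := h1
    exact ApI_cover1 D h hσ hq
  · push Not at h1
    have hJ : ¬ IsJ D b ε₁ ε₂ σ τ δ x := by
      rintro ⟨⟨z, s, t⟩, ha, hs, rfl⟩
      exact h1 (b (z, s, t)) (Or.inl ⟨(z, s, t), ha, hs, rfl⟩) (Jt_box D h.bun σ τ t ha.1 hs).symm
    have hG := Gm_out D b b' ε₁ ε₂ σ τ δ G hJ
    rcases D.cover x with ⟨p, hp, hx⟩ | ⟨w, hw, hx⟩
    · left
      by_cases hB : p ∈ BoxS b
      · obtain ⟨z, s, t, hz, hs, rfl⟩ := hB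
        obtain ⟨p', hp', e⟩ := ApI_old D h hz hs hp σ
        exact ⟨p', hp', by rw [← e, ← hx, hG]⟩
      · by_cases hT : p ∈ Tube κ
        · obtain ⟨l, v, t, hv, rfl⟩ := hT
          have hv0 : v ≠ 0 := by
            rintro rfl
            exact hp ⟨l, t, rfl⟩
          refine ⟨κ' (l, v, t), kap_not h.bun'.thick t hv0 hv, ?_⟩
          rw [Ap_tube D h σ t hv, ← hx, hG]
        · exfalso
          refine h1 p (Or.inr ⟨hT, hB⟩) ?_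
          rw [hx]
          refine (Jt_out D b ε₁ ε₂ σ τ ?_).symm
          rintro z s t hz hs rfl
          exact hB ⟨z, s, t, hz, by linarith, rfl⟩
    · right
      exact ⟨w, hw, by rw [← hx, hG]⟩

end Pool.Agent.RBH
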