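import Pool.Agent.RBH.GmM

/-!
# RBH/ApM: the values of the new map `A'`   (difficulty 3)

* `Ap_box`: the point chosen in the definition is `(z, s, t + m)` (`bun'.box.inj`), `b` has period 1.
* `Ap_tube`: `p = κ' (l, v, t)`.  If `p ∈ BoxS b'`, `p = b' (z, s, t')`: `κ (l, v, t) = b (z, s, t')` (`win_eq`), `Ap_box`.  Otherwise `Rest l` (`bk_tube`), `G.symm p = κ (l, v, t)` (`G_rest`), definition.
* `Ap_out`: definition.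
* `Gm_A_rest`: `κ (l, v, t)`, `Rest l`, `1/2 ≤ ‖v‖ < 1`: `Γ (D.A (κ (l, v, t))) = D.A (κ (l, v, t))`.  By `Gm_out` we may assume `D.A p = Jm a`, `p = κ (l, v, t)`, `a = (z, s, t₁) ∈ DomJ`, `|s| < 3/4`.  `p` is not on the torus (`kap_not`).  If
  `9/4 ≤ ‖z‖`: `Jm_mid`: `D.A p = D.A (b (z, λ s, ..))`, not on the torus (`box_torus`), so `p` is in the box, against `rest_box`.  If `‖z‖ < 9/4`: `Jm a = hD (z, σ s, σ frc ..)` (definition of `Jm`, `‖z‖ < 5/2`), `|σ s| < σ`,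
  `|σ frc ..| ≤ σ/2 < σ`, so it is in `Inn2` (`inn2`): either `D.A (b ..)` (again in the box), or `D.Q w` with `2 |c1| |c2| < 1/2`: `A_Q`: `p = κ (l', v', t')`, `‖v'‖ < 1/2`, `thick.inj`: `v = v'`, contradiction.
* `Gm_A_end`: `‖z‖ < 4`, `3/4 ≤ |s| < 1`, `b (z, s, t)` not of the form `κ (l, v, t')` with `‖v‖ ≤ 1/2`: `Γ (D.A (b (z, s, t))) = D.A (b (z, s, t))`.  Suppose `D.A (b (z, s, t)) = Jm a'`, `a' = (z', s', t') ∈ DomJ`, `|s'| < 3/4`; `b (z, s, t)` is not on the torus.  If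
  `9/4 ≤ ‖z'‖`: `Jm_mid`, `Ab_inj`: `s = λ s'`, `λ ≤ 1`: contradiction.  If `‖z'‖ < 9/4`: `Inn2`: `D.A (b (z'', s'', ..))` with `|s''| < 1/2`: `D.A_inj` and `box.inj`: `s = s''`, contradiction; `D.Q w`: `A_Q`: `b (z, s, t) = κ (l, v, t'')`, `‖v‖ < 1/2`, contradiction.
* `Ap_far`: `p ∉ BoxS b'`, `p ∉ Tube κ'`.  The sets `C₁ = {b' (z, s, t) : ‖z‖ ≤ 3, |s| ≤ 3/4}` (`box_closed`) and `C₂ = {κ' (l, v, t) : ‖v‖ ≤ 1/2}` (`tube_closed`) are closed and do not contain `p`.  Let `p' ∉ C₁ ∪ C₂`; claim `A' p' = Jt (G.symm p')`.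
  - `p' = b' a`, `a = (z, s, t)` in the box, `|s| < 3/4`: then `3 < ‖z‖`, `a ∈ DomJ`, `A' p' = Γ (D.A (b a)) = Γ (Jm a)` (`Jm_out`) `= Jt (G.symm (b' a))` (`Gm_img`).
  - `p' = b' a`, `3/4 ≤ |s|`: `G.symm p' = b a` (`g_mid`), `Jt (b a) = D.A (b a)` (`Jt_end`), `A' p' = Γ (D.A (b a)) = D.A (b a)` (`Gm_A_end`: if `b a = κ (l, v, t')`, `‖v‖ ≤ 1/2`, then `p' = b' a = κ' (l, v, t')` (`win_eq`), which is in `C₂`).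
  - `p' ∉ BoxS b'`, `p' = κ' (l, v, t) ∈ Tube κ'`: `Rest l` (`bk_tube`), `1/2 < ‖v‖`, `G.symm p' = κ (l, v, t)`; `A' p' = Γ (D.A (κ (l, v, t))) = D.A (κ (l, v, t))` (`Gm_A_rest`) and `Jt (κ (l, v, t)) = D.A ..` (`Jt_out`, `rest_box`).
  - otherwise: `Ap_out`.
-/

open scoped Manifold ContDiff Topology
open Set Filter
open Complex (I)
open Pool.Agent.RSG (E4 S4 ex cj c1 c2 ht fh Vx)
open Pool.Agent.RBM

namespace Pool.Agent.RBH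

variable {E : Type*} [NormedAddCommGroup E] [NormedSpace ℝ E] {H : Type*} [TopologicalSpace H]
  {J : ModelWithCorners ℝ E H}
  {P : Type*} [TopologicalSpace P] [ChartedSpace H P] {κ κ' : ℝ × ℂ × ℝ → P} {b b' : ℂ × ℝ × ℝ → P}
  {X : Type*} [TopologicalSpace X] [ChartedSpace E4 X] {n j : ℤ} {ε₁ ε₂ σ δ : ℝ} {τ : ℝ → ℝ}
  {G : Equiv.Perm P}

theorem Ap_box (D : TwinP J κ n j X) (h : RibHom J κ κ' b b' ε₁ ε₂ τ δ G) (σ : ℝ) {z : ℂ} {s : ℝ} (t : ℝ)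
    (hz : ‖z‖ < 4) (hs : |s| < 1) :
    Ap D κ' b b' ε₁ ε₂ σ τ δ G (b' (z, s, t)) = Gm D b b' ε₁ ε₂ σ τ δ G (D.A (b (z, s, t))) := by
  classical
  have hex : ∃ a : ℂ × ℝ × ℝ, ‖a.1‖ < 4 ∧ |a.2.1| < 1 ∧ b' (z, s, t) = b' a :=
    ⟨(z, s, t), hz, hs, rfl⟩
  have key : ∀ a : ℂ × ℝ × ℝ, ‖a.1‖ < 4 → |a.2.1| < 1 → b' (z, s, t) = b' a → b a = b (z, s, t) := by
    rintro ⟨z', s', t'⟩ h1 h2 h3
    obtain ⟨rfl, rfl, m, rfl⟩ := h.bun'.box.inj _ _ _ _ _ _ hz hs h1 h2 h3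
    exact box_int h.bun.box z s t m
  have h1 : Ap D κ' b b' ε₁ ε₂ σ τ δ G (b' (z, s, t)) =
      Gm D b b' ε₁ ε₂ σ τ δ G (D.A (b hex.choose)) := by
    unfold Ap
    rw [dif_pos hex]
  rw [h1, key _ hex.choose_spec.1 hex.choose_spec.2.1 hex.choose_spec.2.2]

theorem ApM_rest (h : RibHom J κ κ' b b' ε₁ ε₂ τ δ G) {l : ℝ} {v : ℂ} (t : ℝ) (hv : ‖v‖ < 1)
    (hl : Rest l) : G.symm (κ' (l, v, t)) = κ (l, v, t) := by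
  rw [Equiv.symm_apply_eq, h.G_rest l v t hv hl]

theorem Ap_tube (D : TwinP J κ n j X) (h : RibHom J κ κ' b b' ε₁ ε₂ τ δ G) (σ : ℝ) {l : ℝ} {v : ℂ} (t : ℝ)
    (hv : ‖v‖ < 1) :
    Ap D κ' b b' ε₁ ε₂ σ τ δ G (κ' (l, v, t)) = Gm D b b' ε₁ ε₂ σ τ δ G (D.A (κ (l, v, t))) := by
  classical
  by_cases hp : κ' (l, v, t) ∈ BoxS b'
  · obtain ⟨z, s, t', hz, hs, he⟩ := hp
    rw [(win_eq h.bun h.bun' hv hz hs).2 he, he]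
    exact Ap_box D h σ t' hz hs
  · have hl := bk_tube h.bun' hv hp
    have h1 : ¬ ∃ a : ℂ × ℝ × ℝ, ‖a.1‖ < 4 ∧ |a.2.1| < 1 ∧ κ' (l, v, t) = b' a := by
      rintro ⟨⟨z, s, t'⟩, h1, h2, h3⟩
      exact hp ⟨z, s, t', h1, h2, h3⟩
    have h2 : κ' (l, v, t) ∈ Tube κ' := ⟨l, v, t, hv, rfl⟩
    unfold Ap
    rw [dif_neg h1, if_pos h2, ApM_rest h t hv hl]

theorem Ap_out (D : TwinP J κ n j X) (κ' : ℝ × ℂ × ℝ → P) (b b' : ℂ × ℝ × ℝ → P) (ε₁ ε₂ σ : ℝ) (τ : ℝ → ℝ)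
    (δ : ℝ) (G : Equiv.Perm P) {p : P} (h1 : p ∉ BoxS b') (h2 : p ∉ Tube κ') :
    Ap D κ' b b' ε₁ ε₂ σ τ δ G p = Jt D b ε₁ ε₂ σ τ (G.symm p) := by
  classical
  have h3 : ¬ ∃ a : ℂ × ℝ × ℝ, ‖a.1‖ < 4 ∧ |a.2.1| < 1 ∧ p = b' a := by
    rintro ⟨⟨z, s, t'⟩, h4, h5, h6⟩
    exact h1 ⟨z, s, t', h4, h5, h6⟩
  unfold Ap
  rw [dif_neg h3, if_neg h2]

/-- a point of `P` whose image is in the image of `J` -/
theorem ApM_isJ (D : TwinP J κ n j X) (h : Bundle J κ b ε₁ ε₂) (hσ : DiscOK2 D b ε₁ ε₂ σ)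
    {p : P} (hp : ¬ OnT κ p) (hJ : IsJ D b ε₁ ε₂ σ τ δ (D.A p)) :
    (∃ (z : ℂ) (s t : ℝ), ‖z‖ < 4 ∧ |s| < 3 / 4 ∧ p = b (z, s, t)) ∨
      ∃ (l : ℝ) (v : ℂ) (t : ℝ), ‖v‖ < 1 / 2 ∧ p = κ (l, v, t) := by
  obtain ⟨⟨z, s, t⟩, ⟨hz, hs1, -⟩, hs, he⟩ := hJ
  simp only at hz hs1 hs
  have hσ' := hσ.toDiscOK
  have hσ1 : σ ≤ 1 := hσ'.le.trans (by norm_num)
  rcases le_or_gt (9 / 4) ‖z‖ with h9 | h9
  · rw [Jm_mid D h hσ' τ s t h9] at he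
    have hb := lamJ_bd hσ'.pos hσ1 (‖z‖ ^ 2)
    have hl0 : 0 < lamJ σ (‖z‖ ^ 2) := hσ'.pos.trans_le hb.1
    have h6 : |lamJ σ (‖z‖ ^ 2) * s| < 3 / 4 := by
      rw [abs_mul, abs_of_pos hl0]
      nlinarith [abs_nonneg s]
    have hne := JmB_ne (z := z) (by linarith)
    have hnt : ¬ OnT κ (b (z, lamJ σ (‖z‖ ^ 2) * s,
        lamJ σ (‖z‖ ^ 2) * frc (t - τ s) + muJ (‖z‖ ^ 2) * τ s)) := by
      rw [box_torus h hz (by linarith)]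
      exact not_or.mpr hne
    exact Or.inl ⟨z, _, _, hz, h6, D.A_inj _ _ hp hnt he⟩
  · rw [JmB_small D b ε₁ ε₂ σ τ s t (by linarith)] at he
    have hb := JmB_bds hσ' (t - τ s) hs1
    rcases hσ.inn2 z (σ * s) (σ * frc (t - τ s)) h9 hb.1 hb.2 with ⟨w, u, x, hw, hu, hn, hx⟩ | ⟨w, hw, hw2, hx⟩
    · rw [hx] at he
      exact Or.inl ⟨w, u, x, by linarith, by linarith, D.A_inj _ _ hp hn he⟩
    · rw [hx] at he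
      obtain ⟨l, v, t', -, -, h1, h2⟩ := A_Q D h.thick hw hp he
      exact Or.inr ⟨l, v, t', by rw [h1]; exact hw2, h2⟩

theorem Gm_A_rest (D : TwinP J κ n j X) (h : RibHom J κ κ' b b' ε₁ ε₂ τ δ G) (hσ : DiscOK2 D b ε₁ ε₂ σ)
    {l : ℝ} {v : ℂ} (t : ℝ) (hl : Rest l) (h0 : 1 / 2 ≤ ‖v‖) (hv : ‖v‖ < 1) :
    Gm D b b' ε₁ ε₂ σ τ δ G (D.A (κ (l, v, t))) = D.A (κ (l, v, t)) := by
  have hv0 : v ≠ 0 := by
    rintro rfl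
    rw [norm_zero] at h0
    linarith
  by_cases hJ : IsJ D b ε₁ ε₂ σ τ δ (D.A (κ (l, v, t)))
  · exfalso
    rcases ApM_isJ D h.bun hσ (kap_not h.bun.thick t hv0 hv) hJ with ⟨z, s, t', hz, hs, he⟩ | ⟨l', v', t', hv', he⟩
    · exact rest_box h.bun hv hl ⟨z, s, t', hz, by linarith, he⟩
    · have h1 := (h.bun.thick.inj _ _ _ _ _ _ hv (by linarith) he).1
      rw [← h1] at hv'
      linarith
  · exact Gm_out D b b' ε₁ ε₂ σ τ δ G hJ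

theorem Gm_A_end (D : TwinP J κ n j X) (h : RibHom J κ κ' b b' ε₁ ε₂ τ δ G) (hσ : DiscOK2 D b ε₁ ε₂ σ)
    {z : ℂ} {s t : ℝ} (hz : ‖z‖ < 4) (hs : 3 / 4 ≤ |s|) (hs1 : |s| < 1)
    (hne : ∀ (l : ℝ) (v : ℂ) (t' : ℝ), ‖v‖ ≤ 1 / 2 → b (z, s, t) ≠ κ (l, v, t')) :
    Gm D b b' ε₁ ε₂ σ τ δ G (D.A (b (z, s, t))) = D.A (b (z, s, t)) := by
  have hnt : ¬ OnT κ (b (z, s, t)) := by
    rintro ⟨l, t', he⟩
    exact hne l 0 t' (by rw [norm_zero]; norm_num) he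
  by_cases hJ : IsJ D b ε₁ ε₂ σ τ δ (D.A (b (z, s, t)))
  · exfalso
    rcases ApM_isJ D h.bun hσ hnt hJ with ⟨z', s', t', hz', hs', he⟩ | ⟨l', v', t', hv', he⟩
    · have h1 := (h.bun.box.inj _ _ _ _ _ _ hz hs1 hz' (by linarith) he).2.1
      rw [← h1] at hs'
      linarith
    · exact hne l' v' t' hv'.le he
  · exact Gm_out D b b' ε₁ ε₂ σ τ δ G hJ

theorem Ap_far [T2Space P] (D : TwinP J κ n j X) (h : RibHom J κ κ' b b' ε₁ ε₂ τ δ G)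
    (hσ : DiscOK2 D b ε₁ ε₂ σ) {p : P} (h1 : p ∉ BoxS b') (h2 : p ∉ Tube κ') :
    ∀ᶠ p' in 𝓝 p, Ap D κ' b b' ε₁ ε₂ σ τ δ G p' = Jt D b ε₁ ε₂ σ τ (G.symm p') := by
  have hC₁ := box_closed (b := b') h.bun'.box (r₀ := 3) (s₀ := 3 / 4) (by norm_num) (by norm_num)
  have hC₂ := tube_closed (κ := κ') h.bun'.thick (r₀ := 1 / 2) (by norm_num)
  have n₁ : p ∈ {p : P | ∃ (z : ℂ) (s t : ℝ), ‖z‖ ≤ 3 ∧ |s| ≤ 3 / 4 ∧ p = b' (z, s, t)}ᶜ := by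
    rintro ⟨z, s, t, hz, hs, he⟩
    exact h1 ⟨z, s, t, by linarith, by linarith, he⟩
  have n₂ : p ∈ {p : P | ∃ (l : ℝ) (v : ℂ) (t : ℝ), ‖v‖ ≤ 1 / 2 ∧ p = κ' (l, v, t)}ᶜ := by
    rintro ⟨l, v, t, hv, he⟩
    exact h2 ⟨l, v, t, by linarith, he⟩
  filter_upwards [hC₁.isOpen_compl.mem_nhds n₁, hC₂.isOpen_compl.mem_nhds n₂] with p' m₁ m₂
  by_cases hb : p' ∈ BoxS b'
  · obtain ⟨z, s, t, hz, hs, rfl⟩ := hb
    rw [Ap_box D h σ t hz hs]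
    rcases lt_or_ge |s| (3 / 4) with h3 | h3
    · have h4 : 3 < ‖z‖ := by
        by_contra hc
        exact m₁ ⟨z, s, t, not_lt.1 hc, h3.le, rfl⟩
      have h5 : (z, s, t) ∈ DomJ τ δ := ⟨hz, hs, fun hle => absurd hle (not_le.2 h4)⟩
      have h6 := Gm_img D h hσ.toDiscOK h5 h3
      rw [Jm_out D b ε₁ ε₂ σ τ (a := (z, s, t)) h4.le] at h6
      exact h6
    · rw [g_mid h hz (by linarith) hs, Jt_end D h.bun σ τ t hz h3 hs]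
      refine Gm_A_end D h hσ hz h3 hs ?_
      intro l v t' hv he
      exact m₂ ⟨l, v, t', hv, ((win_eq h.bun h.bun' (by linarith) hz hs).1 he.symm).symm⟩
  · by_cases ht : p' ∈ Tube κ'
    · obtain ⟨l, v, t, hv, rfl⟩ := ht
      have hl := bk_tube h.bun' hv hb
      have h3 : 1 / 2 ≤ ‖v‖ := by
        by_contra hc
        exact m₂ ⟨l, v, t, (not_le.1 hc).le, rfl⟩
      rw [Ap_tube D h σ t hv, ApM_rest h t hv hl, Gm_A_rest D h hσ t hl h3 hv, Jt_out]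
      intro z s t' hz hs he
      exact rest_box h.bun hv hl ⟨z, s, t', hz, by linarith, he⟩
    · exact Ap_out D κ' b b' ε₁ ε₂ σ τ δ G hb ht

end Pool.Agent.RBH
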