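import Pool.Agent.RBH.GmL
import Pool.Agent.RBH.ApM

/-!
# RBH/ApL: the new maps are local diffeomorphisms   (difficulty 2)

`p` not on the new torus.
* `p ∈ BoxS b'`, `p = b' a`: near `a`, `A' ∘ b' = Γ ∘ D.A ∘ b` (`Ap_box`); `b a` is not on the old torus (`box_new`), `D.A (b a) ∈ Old`; `b`, `b'` (`box.loc`), `D.A` (`D.A_loc`), `Γ` (`Gm_ld`) are local
  diffeomorphisms: `CSG.ld_of_comp_left`.
* `p ∈ Tube κ'`, `p = κ' (l, v, t)`: `v ≠ 0`; near `(l, v, t)`: `A' ∘ κ' = Γ ∘ D.A ∘ κ` (`Ap_tube`), `κ (l, v, t)` is not on the old torus (`kap_not`): the same.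
* otherwise `Ap_far`: near `p`, `A' = Jt ∘ G.symm`; `ld_symm` (with `h.G_ld`), `Jt_ld` at `G.symm p` (`good_new`).
`Qp_ld`: `D.Q_loc`, `Gm_ld`.
-/

open scoped Manifold ContDiff Topology
open Set Filter
open Complex (I)
open Pool.Agent.RSG (E4 S4 ex cj c1 c2 ht fh Vx)
open Pool.Agent.RBM

namespace Pool.Agent.RBH

variable {E : Type*} [NormedAddCommGroup E] [NormedSpace ℝ E] {H : Type*} [TopologicalSpace H]
  {J : ModelWithCorners ℝ E H}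
  {P : Type*} [TopologicalSpace P] [ChartedSpace H P] {κ κ' : ℝ × ℂ × ℝ → P} {b b' : ℂ × ℝ × ℝ → P}
  {X : Type*} [TopologicalSpace X] [ChartedSpace E4 X] {n j : ℤ} {ε₁ ε₂ σ δ : ℝ} {τ : ℝ → ℝ}
  {G : Equiv.Perm P}

theorem Ap_ld [T2Space P] [T2Space X] (D : TwinP J κ n j X) (h : RibHom J κ κ' b b' ε₁ ε₂ τ δ G)
    (hσ : DiscOK2 D b ε₁ ε₂ σ) {p : P} (hp : ¬ OnT κ' p) :
    IsLocalDiffeomorphAt J (𝓡 4) ∞ (Ap D κ' b b' ε₁ ε₂ σ τ δ G) p := by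
  by_cases hb : p ∈ BoxS b'
  · obtain ⟨z, s, t, hz, hs, rfl⟩ := hb
    rw [box_new h.bun h.bun' hz hs] at hp
    have h1 : D.A (b (z, s, t)) ∈ Old D b := Or.inl ⟨_, hp, Or.inl ⟨z, s, t, hz, hs, rfl⟩, rfl⟩
    have hf := h.bun.box.loc z s t hz hs
    have hA := D.A_loc _ hp
    have hG := Gm_ld D h hσ.toDiscOK h1
    have h2 : IsLocalDiffeomorphAt 𝓘(ℝ, ℂ × ℝ × ℝ) (𝓡 4) ∞ (D.A ∘ b) (z, s, t) :=
      IsLocalDiffeomorphAt.comp (hf := hf) (hg := hA) ..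
    have h3 : IsLocalDiffeomorphAt 𝓘(ℝ, ℂ × ℝ × ℝ) (𝓡 4) ∞
        (Gm D b b' ε₁ ε₂ σ τ δ G ∘ (D.A ∘ b)) (z, s, t) :=
      IsLocalDiffeomorphAt.comp (hf := h2) (hg := hG) ..
    refine CSG.ld_of_comp_left (f := b') (g := Ap D κ' b b' ε₁ ε₂ σ τ δ G) (x := (z, s, t)) ?_
      (h.bun'.box.loc z s t hz hs)
    refine CSG.ld_congr h3 ?_
    have c1 : ContinuousAt (fun a : ℂ × ℝ × ℝ => ‖a.1‖) (z, s, t) := by fun_prop
    have c2 : ContinuousAt (fun a : ℂ × ℝ × ℝ => |a.2.1|) (z, s, t) := by fun_prop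
    filter_upwards [c1.eventually (Iio_mem_nhds hz), c2.eventually (Iio_mem_nhds hs)] with a g1 g2
    obtain ⟨z', s', t'⟩ := a
    exact Ap_box D h σ t' g1 g2
  · by_cases ht : p ∈ Tube κ'
    · obtain ⟨l, v, t, hv, rfl⟩ := ht
      have hv0 : v ≠ 0 := by
        rintro rfl
        exact hp ⟨l, t, rfl⟩
      have hk := kap_not h.bun.thick (l := l) t hv0 hv
      have h1 : D.A (κ (l, v, t)) ∈ Old D b := Or.inl ⟨_, hk, Or.inr ⟨l, v, t, hv, rfl⟩, rfl⟩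
      have hf := h.bun.thick.loc l v t hv
      have hA := D.A_loc _ hk
      have hG := Gm_ld D h hσ.toDiscOK h1
      have h2 : IsLocalDiffeomorphAt 𝓘(ℝ, ℝ × ℂ × ℝ) (𝓡 4) ∞ (D.A ∘ κ) (l, v, t) :=
        IsLocalDiffeomorphAt.comp (hf := hf) (hg := hA) ..
      have h3 : IsLocalDiffeomorphAt 𝓘(ℝ, ℝ × ℂ × ℝ) (𝓡 4) ∞
          (Gm D b b' ε₁ ε₂ σ τ δ G ∘ (D.A ∘ κ)) (l, v, t) :=
        IsLocalDiffeomorphAt.comp (hf := h2) (hg := hG) ..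
      refine CSG.ld_of_comp_left (f := κ') (g := Ap D κ' b b' ε₁ ε₂ σ τ δ G) (x := (l, v, t)) ?_
        (h.bun'.thick.loc l v t hv)
      refine CSG.ld_congr h3 ?_
      have c1 : ContinuousAt (fun a : ℝ × ℂ × ℝ => ‖a.2.1‖) (l, v, t) := by fun_prop
      filter_upwards [c1.eventually (Iio_mem_nhds hv)] with a g1
      obtain ⟨l', v', t'⟩ := a
      exact Ap_tube D h σ t' g1
    · have hS := ld_symm (h.G_ld (G.symm p))
      rw [Equiv.apply_symm_apply] at hS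
      have hJ := Jt_ld D h.bun hσ.toDiscOK h.tau h.pos (good_new h hb ht)
      have h2 : IsLocalDiffeomorphAt J (𝓡 4) ∞ (Jt D b ε₁ ε₂ σ τ ∘ G.symm) p :=
        IsLocalDiffeomorphAt.comp (hf := hS) (hg := hJ) ..
      refine CSG.ld_congr h2 ?_
      filter_upwards [Ap_far D h hσ hb ht] with p' g1
      exact g1

theorem Qp_ld [T2Space P] [T2Space X] (D : TwinP J κ n j X) (h : RibHom J κ κ' b b' ε₁ ε₂ τ δ G)
    (hσ : DiscOK D b ε₁ ε₂ σ) {z : S4} (hz : fh z ≠ 0) :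
    IsLocalDiffeomorphAt (𝓡 4) (𝓡 4) ∞ (fun z => Gm D b b' ε₁ ε₂ σ τ δ G (D.Q z)) z := by
  have hQ := D.Q_loc z hz
  have hG := Gm_ld D h hσ (Or.inr ⟨z, hz, rfl⟩)
  exact IsLocalDiffeomorphAt.comp (hf := hQ) (hg := hG) ..

end Pool.Agent.RBH
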