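import Pool.Agent.RBH.DkM
import Pool.Agent.RBH.ApL
import Pool.Agent.RBH.ApI

/-!
# RBH/Main: the ribbon homotopy theorem (assembly, complete)
-/

open scoped Manifold ContDiff Topology
open Set Filter
open Complex (I)
open Pool.Agent.RSG (E4 S4 ex cj c1 c2 ht fh Vx)
open Pool.Agent.RBM

namespace Pool.Agent.RBH

variable {E : Type*} [NormedAddCommGroup E] [NormedSpace ℝ E] {H : Type*} [TopologicalSpace H]
  {J : ModelWithCorners ℝ E H}
  {P : Type*} [TopologicalSpace P] [ChartedSpace H P] {κ κ' : ℝ × ℂ × ℝ → P} {b b' : ℂ × ℝ × ℝ → P}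
  {X : Type*} [TopologicalSpace X] [ChartedSpace E4 X] {n j : ℤ} {ε₁ ε₂ σ δ : ℝ} {τ : ℝ → ℝ}
  {G : Equiv.Perm P}

/-- **Ribbon homotopy.** -/
theorem rbh [T2Space P] [T2Space X] (h : RibHom J κ κ' b b' ε₁ ε₂ τ δ G) (n j : ℤ)
    (hX : Nonempty (TwinP J κ n j X)) : Nonempty (TwinP J κ' n j X) := by
  obtain ⟨D⟩ := hX
  obtain ⟨σ, hσ⟩ := exists_disc2 D h.bun
  exact ⟨{
    A := Ap D κ' b b' ε₁ ε₂ σ τ δ G
    Q := fun z => Gm D b b' ε₁ ε₂ σ τ δ G (D.Q z)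
    A_loc := fun p hp => Ap_ld D h hσ hp
    A_inj := fun p p' hp hp' he => Ap_inj D h hσ.toDiscOK hp hp' he
    Q_loc := fun z hz => Qp_ld D h hσ.toDiscOK hz
    Q_inj := fun z z' hz hz' he => D.Q_inj z z' hz hz'
      (Gm_inj D h hσ.toDiscOK (Or.inr ⟨z, hz, rfl⟩) (Or.inr ⟨z', hz', rfl⟩) he)
    glue := by
      intro z l m t h1 h2 h3 h4 h5 h6
      rw [D.glue z l m t h1 h2 h3 h4 h5 h6, Ap_tube D h σ t (RSG.glue_norm h1 m)]
    disj := fun z p hz hc hp => Ap_disj D h hσ.toDiscOK hz hc hp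
    cover := fun x => Ap_cover D h hσ.toDiscOK x }⟩

end Pool.Agent.RBH
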