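import Pool.Agent.RBH.Defs
import Pool.Agent.RBM.Dok

/-!
# RBH/DkM: the size of the thick disc, with more information   (difficulty 3)

`exists_disc2`: take `σ₀` from `exists_disc`.  `DiscOK` is inherited by smaller `σ` (`DkM_mono`: all fields are monotone).  We need `σ ≤ σ₀` with
`inn2`.  `hD D b ε₁ ε₂ (z, s, t) = DC D b ε₁ ε₂ (4 z, ⟨s, t⟩)`.  Claim: for every `p` with `‖p‖ ≤ 9`, for all `q` near `(p, 0)`: `DC q ∈ Inn2`
(`DkM_ev`); then the compactness of `{‖p‖ ≤ 9}` (tube lemma: `IsCompact.eventually_forall_of_forall_eventually` or `generalized_tube_lemma`)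
gives `σ` (with `|s|, |t| < σ ⇒ ‖⟨s, t⟩‖` small).
Claim, case `‖p - 4 δ‖ < 1/4`, `δ = ±1` (an open condition): there `DC q = D.Q (Vx δ (XW δ ε q))` by definition, with `fh ≠ 0` (`Vx_ne`,
`SV < 1` near the point by continuity, `SV_XW_zero`), `c1, c2 = x ± w/2` (`Vx_c`), and at `(p, 0)`: `x = cj ε (p - 4δ)/2`, `w = 0`, so `2 |c1| |c2| = 2 |x|² ≤ 2/64`; by
continuity `2 |c1| |c2| < 1/2` near the point.
Case `‖p ∓ 4‖ ≥ 1/4`: `p ≠ ±4`, `DC_near`: near `(p, 0)`, `DC q = D.A (b (BD q))`; `BD` is continuous at `(p, 0)` (`BD_ld`) with value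
`(gD p, 0, 0)` (see `DC_zero`, `DC_inn` in RBM/DCb for the same argument), `‖gD p‖ ≤ 9/4`, `gD p ≠ ±1`: so near the point `‖z‖ < 5/2`, `|s| < 1/2`, `z ≠ ±1`, hence not on
the torus (`box_torus`).
-/

open scoped Manifold ContDiff Topology
open Set Filter
open Complex (I)
open Pool.Agent.RSG (E4 S4 ex cj c1 c2 ht fh Vx)
open Pool.Agent.RBM

namespace Pool.Agent.RBH

variable {E : Type*} [NormedAddCommGroup E] [NormedSpace ℝ E] {H : Type*} [TopologicalSpace H]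
  {J : ModelWithCorners ℝ E H}
  {P : Type*} [TopologicalSpace P] [ChartedSpace H P] {κ κ' : ℝ × ℂ × ℝ → P} {b b' : ℂ × ℝ × ℝ → P}
  {X : Type*} [TopologicalSpace X] [ChartedSpace E4 X] {n j : ℤ} {ε₁ ε₂ σ δ : ℝ} {τ : ℝ → ℝ}
  {G : Equiv.Perm P}

theorem DkM_mono {D : TwinP J κ n j X} {b : ℂ × ℝ × ℝ → P} {σ σ' : ℝ} (h : DiscOK D b ε₁ ε₂ σ) (h0 : 0 < σ')
    (h1 : σ' ≤ σ) : DiscOK D b ε₁ ε₂ σ' :=
  ⟨h0, h1.trans h.le, h.out,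
    fun z s t hz hs ht => h.loc z s t hz (hs.trans_le h1) (ht.trans_le h1),
    fun z s t z' s' t' hz hs ht hz' hs' ht' he => h.inj z s t z' s' t' hz (hs.trans_le h1) (ht.trans_le h1)
      hz' (hs'.trans_le h1) (ht'.trans_le h1) he,
    fun z s t hz hs ht => h.inn z s t hz (hs.trans_le h1) (ht.trans_le h1)⟩

theorem DkM_c {δ : ℝ} (hδ : δ = 1 ∨ δ = -1) {q : ℂ × ℂ} (h : Pool.Agent.RSG.SV q < 1 / 2) :
    2 * ‖c1 (Vx δ q)‖ * ‖c2 (Vx δ q)‖ < 1 / 2 := by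
  obtain ⟨e1, e2, -⟩ := Pool.Agent.RSG.Vx_c hδ (q := q) (by linarith)
  rw [e1, e2]
  have h1 := parallelogram_law_with_norm ℝ q.1 (q.2 / 2)
  have h2 : ‖q.2 / 2‖ = ‖q.2‖ / 2 := by rw [norm_div]; simp
  rw [h2] at h1
  have h3 : Pool.Agent.RSG.SV q = 2 * ‖q.1‖ ^ 2 + ‖q.2‖ ^ 2 / 2 := rfl
  nlinarith [sq_nonneg (‖q.1 + q.2 / 2‖ - ‖q.1 - q.2 / 2‖)]

/-- the points of the disc at the vertices are in the twin -/
theorem DkM_innv (D : TwinP J κ n j X) (b : ℂ × ℝ × ℝ → P) {δ ε : ℝ} (hδ : δ = 1 ∨ δ = -1)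
    (hε : ε = 1 ∨ ε = -1) {p : ℂ} (h1 : ‖p - 4 * δ‖ < 1 / 4) :
    ∀ᶠ q in 𝓝 (p, (0 : ℂ)), D.Q (Vx δ (Pool.Agent.RSG.XW δ ε q)) ∈ Inn2 D b := by
  have hc : ContinuousAt (Pool.Agent.RSG.XW δ ε) (p, (0 : ℂ)) :=
    Pool.Agent.CSG.ld_continuousAt (Pool.Agent.RSG.XW_ld hδ hε (DCb_ne hδ h1))
  have hS : ContinuousAt (fun q => Pool.Agent.RSG.SV (Pool.Agent.RSG.XW δ ε q)) (p, (0 : ℂ)) :=
    ContinuousAt.comp (g := Pool.Agent.RSG.SV)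
      (Pool.Agent.RSG.FiA_SV_smooth.continuous.continuousAt) hc
  have h0 : Pool.Agent.RSG.SV (Pool.Agent.RSG.XW δ ε (p, 0)) < 1 / 2 := by
    rw [Pool.Agent.RSG.SV_XW_zero hε]
    nlinarith [norm_nonneg (p - 4 * (δ : ℂ))]
  filter_upwards [hS.eventually (gt_mem_nhds h0)] with q hq
  exact Or.inr ⟨_, Pool.Agent.RSG.Vx_ne hδ (by linarith), DkM_c hδ hq, rfl⟩

theorem DkM_ev (D : TwinP J κ n j X) (h : Bundle J κ b ε₁ ε₂) {p : ℂ} (hp : ‖p‖ ≤ 9) :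
    ∀ᶠ q in 𝓝 (p, (0 : ℂ)), DC D b ε₁ ε₂ q ∈ Inn2 D b := by
  have hc1 : ContinuousAt (fun q : ℂ × ℂ => ‖q.1 - 4‖) (p, 0) :=
    ((continuous_fst.sub continuous_const).norm).continuousAt
  have hc2 : ContinuousAt (fun q : ℂ × ℂ => ‖q.1 + 4‖) (p, 0) :=
    ((continuous_fst.add continuous_const).norm).continuousAt
  by_cases h5 : ‖p - 4‖ < 1 / 4
  · have h5' : ‖p - 4 * ((1 : ℝ) : ℂ)‖ < 1 / 4 := by rw [DCb_one]; exact h5
    filter_upwards [hc1.eventually (gt_mem_nhds h5),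
      DkM_innv D b (δ := 1) (ε := ε₁) (Or.inl rfl) h.sign₁ h5'] with q hq hq2
    unfold DC
    rw [if_pos hq]
    exact hq2
  by_cases h6 : ‖p + 4‖ < 1 / 4
  · have h6' : ‖p - 4 * ((-1 : ℝ) : ℂ)‖ < 1 / 4 := by rw [DCb_neg]; exact h6
    filter_upwards [hc2.eventually (gt_mem_nhds h6),
      DkM_innv D b (δ := -1) (ε := ε₂) (Or.inr rfl) h.sign₂ h6'] with q hq hq2
    unfold DC
    have h7 : ¬ ‖q.1 - 4‖ < 1 / 4 := fun h8 => DCb_far (p := q.1) (by linarith) (by linarith)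
    rw [if_neg h7, if_pos hq]
    exact hq2
  · have h3 : p ≠ 4 := by
      rintro rfl
      apply h5
      simp
    have h4 : p ≠ -4 := by
      rintro rfl
      apply h6
      simp
    obtain ⟨h8, h9⟩ := gD_ne h3 h4
    have hc : ContinuousAt (BD ε₁ ε₂ n j) (p, (0 : ℂ)) :=
      Pool.Agent.CSG.ld_continuousAt (BD_ld h.sign₁ h.sign₂ n j h3 h4)
    have e0 := BD_zero h.sign₁ h.sign₂ n j h3 h4
    have k1 : ContinuousAt (fun q => (BD ε₁ ε₂ n j q).1) (p, (0 : ℂ)) := hc.fst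
    have k2 : ContinuousAt (fun q => |(BD ε₁ ε₂ n j q).2.1|) (p, (0 : ℂ)) := hc.snd.fst.abs
    have k3 : ContinuousAt (fun q => ‖(BD ε₁ ε₂ n j q).1‖) (p, (0 : ℂ)) := k1.norm
    filter_upwards [DC_near D h h3 h4,
      k3.eventually (gt_mem_nhds (show ‖(BD ε₁ ε₂ n j (p, 0)).1‖ < 5 / 2 by
        rw [e0]; exact lt_of_le_of_lt (DCb_le hp) (by norm_num))),
      k2.eventually (gt_mem_nhds (show |(BD ε₁ ε₂ n j (p, 0)).2.1| < 1 / 2 by rw [e0]; simp)),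
      k1.eventually_ne (show (BD ε₁ ε₂ n j (p, 0)).1 ≠ 1 by rw [e0]; exact h8),
      k1.eventually_ne (show (BD ε₁ ε₂ n j (p, 0)).1 ≠ -1 by rw [e0]; exact h9)] with q q1 q2 q3 q4 q5
    rw [q1]
    refine Or.inl ⟨(BD ε₁ ε₂ n j q).1, (BD ε₁ ε₂ n j q).2.1, (BD ε₁ ε₂ n j q).2.2, q2, q3, ?_, rfl⟩
    exact DCa_not h (by linarith) (by linarith) q4 q5

theorem exists_disc2 [T2Space X] (D : TwinP J κ n j X) (h : Bundle J κ b ε₁ ε₂) :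
    ∃ σ : ℝ, DiscOK2 D b ε₁ ε₂ σ := by
  obtain ⟨σ₀, h0⟩ := exists_disc D h
  have hinn : {q : ℂ × ℂ | DC D b ε₁ ε₂ q ∈ Inn2 D b} ∈
      𝓝ˢ (Metric.closedBall (0 : ℂ) 9 ×ˢ {(0 : ℂ)}) := by
    rw [mem_nhdsSet_iff_forall]
    rintro ⟨p, ν⟩ ⟨hp, hν⟩
    obtain rfl : ν = 0 := hν
    exact DkM_ev D h (by simpa using hp)
  obtain ⟨δ₃, hδ₃, h₃⟩ := Dok_tube hinn
  have hpos : 0 < min σ₀ (δ₃ / 2) := lt_min h0.pos (by linarith)
  have hle1 : min σ₀ (δ₃ / 2) ≤ σ₀ := min_le_left _ _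
  have hle2 : min σ₀ (δ₃ / 2) ≤ δ₃ / 2 := min_le_right _ _
  refine ⟨min σ₀ (δ₃ / 2), { toDiscOK := DkM_mono h0 hpos hle1, inn2 := ?_ }⟩
  intro z s t hz hs ht
  have h4n : ‖4 * z‖ = 4 * ‖z‖ := by
    rw [norm_mul]
    simp
  have hn : ‖(⟨s, t⟩ : ℂ)‖ < δ₃ := by
    have := Complex.norm_le_abs_re_add_abs_im (⟨s, t⟩ : ℂ)
    simp only at this
    linarith
  exact h₃ (4 * z) ⟨s, t⟩ (by rw [h4n]; linarith) hn

end Pool.Agent.RBH
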