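import Pool.Agent.RBH.JtM

/-!
# RBH/GmM: the map `Γ = Gm`   (difficulty 3)

Notation: `g a = G.symm (b' a)`.
* `g_mid`: `‖z‖ < 4`, `1/2 ≤ |s| < 1`: `g (z, s, t) = b (z, s, t)` (`G_ends`).  `g_hole`: `G_hole`.
* `good_back`: `a ∈ DomJ`, `|s| < 3/4`: `g a ∈ Good`.  If `1/2 ≤ |s|`: `g a = b a`.  Let `|s| < 1/2`, `q = g a`, `G q = b' a`.  If `q ∈ BoxS b`, `q = b a''`: if `1/2 ≤ |s''|` then `G q = b' a''`
  (`G_ends`), so `b' a'' = b' a`, `s'' = s` (`bun'.box.inj`), contradiction; so `|s''| < 1/2`.  If `a'' ∈ DomJ` we are done.  Otherwise `‖z''‖ ≤ 3` and `1/2 - δ ≤ |frc (t'' - τ s'')|`, so `G q = b' a''`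
  (`G_hole`), `a'' = a + (0, 0, m)` and `a ∈ DomJ` (`frc_add_int`): contradiction.  If `q ∉ BoxS b` and `q ∈ Tube κ`: `tube_cases`: `q = κ (l, v, t)` with `Rest l` (the first case is in the box), `G q =
  κ' (l, v, t)` (`G_rest`), but `κ' (l, v, t) ∉ BoxS b'` (`rest_box` for `bun'`), contradiction.
* `good_new`: `p ∉ BoxS b'`, `p ∉ Tube κ'`: `q = G.symm p ∈ Good`: if `q = b a''` with `a''` in the box: `1/2 ≤ |s''|` gives `p = G q = b' a''`, contradiction; so `|s''| < 1/2`; if `a'' ∉ DomJ`: `G_hole`: `p = b' a''`,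
  contradiction.  If `q ∈ Tube κ` but not in the box: `G_rest`: `p = κ' (..) ∈ Tube κ'`.
* `Gm_img`: the point chosen in the definition is `a + (0, 0, m)` (`Jm_inj`), `b'` has period 1 (`box_int`).  `Gm_out`: definition.
* `Gm_ends`: `1/2 ≤ |s| < 3/4`: `Gm_img`, `g a = b a`, `Jt_box`.  `Gm_hole`: the same for `a ∈ DomJ`, `‖z‖ ≤ 13/4`, `1/2 - 2δ ≤ |frc|`.
* `Gm_Jt`: `x ∈ Old`, `q ∈ Good`, and `q ≠ g a` for all `a ∈ DomJ` with `|s| < 3/4`: `Gm x ≠ Jt q`.  If `x = Jm a` with `a ∈ DomJ`, `|s| < 3/4`: `Gm x = Jt (g a)`, `Jt_inj` (`good_back`).  Otherwise `Gm x = x`; suppose `x = Jt q`.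
  If `q = b a''` with `a'' ∈ DomJ`, `|s''| < 3/4`: `x = Jm a''` (`Jt_box`), contradiction.  If `q` is outside the box and the tube: `x = D.A q` (`Jt_out`), `q` is not on the torus (`torus_tube`); `x ∈ Old`: either `x = D.A p` with `p`
  in the box or in the tube, not on the torus: `p = q` (`D.A_inj`), contradiction; or `x = D.Q z`: `A_Q_tube`.
* `Gm_inj`: `x, x' ∈ Old`.  Both images: `Jt_inj` (`good_back`), `g a = g a'`, so `b' a = b' a'`, `a' = a + (0, 0, m)`, `Jm_int`.  Neither: trivial.  `x = Jm a`, `x'` not an image: `Jt (g a) = x' = Gm x'`: as in `Gm_Jt`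
  (second part: `x' ∈ Old` is not an image and `x' = Jt q`, `q = g a ∈ Good`, is impossible).
-/

open scoped Manifold ContDiff Topology
open Set Filter
open Complex (I)
open Pool.Agent.RSG (E4 S4 ex cj c1 c2 ht fh Vx)
open Pool.Agent.RBM

namespace Pool.Agent.RBH

variable {E : Type*} [NormedAddCommGroup E] [NormedSpace ℝ E] {H : Type*} [TopologicalSpace H]
  {J : ModelWithCorners ℝ E H}
  {P : Type*} [TopologicalSpace P] [ChartedSpace H P] {κ κ' : ℝ × ℂ × ℝ → P} {b b' : ℂ × ℝ × ℝ → P}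
  {X : Type*} [TopologicalSpace X] [ChartedSpace E4 X] {n j : ℤ} {ε₁ ε₂ σ δ : ℝ} {τ : ℝ → ℝ}
  {G : Equiv.Perm P}

/-- membership in `DomJ` is invariant under `t ↦ t + m` -/
theorem GmM_dom {τ : ℝ → ℝ} {δ : ℝ} {z : ℂ} {s t : ℝ} (m : ℤ) (ha : (z, s, t + m) ∈ DomJ τ δ) :
    (z, s, t) ∈ DomJ τ δ := by
  obtain ⟨h1, h2, h3⟩ := ha
  refine ⟨h1, h2, fun h4 => ?_⟩
  have h5 := h3 h4
  have e : (z, s, t + (m : ℝ)).2.2 - τ (z, s, t + (m : ℝ)).2.1 = (t - τ s) + m := by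
    simp only
    ring
  rw [e, frc_add_int] at h5
  exact h5

theorem GmM_box (h : RibHom J κ κ' b b' ε₁ ε₂ τ δ G) {q : P} (hq : q ∈ BoxS b) :
    (∃ a ∈ DomJ τ δ, |a.2.1| < 3 / 4 ∧ q = b a) ∨
      ∃ (z : ℂ) (s t : ℝ), ‖z‖ < 4 ∧ |s| < 1 ∧ G q = b' (z, s, t) ∧ (1 / 2 ≤ |s| ∨ (z, s, t) ∉ DomJ τ δ) := by
  obtain ⟨z, s, t, hz, hs, rfl⟩ := hq
  rcases le_or_gt (1 / 2) |s| with h2 | h2
  · exact Or.inr ⟨z, s, t, hz, hs, h.G_ends z s t hz h2 hs, Or.inl h2⟩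
  · by_cases hd : (z, s, t) ∈ DomJ τ δ
    · exact Or.inl ⟨(z, s, t), hd, by simp only; linarith, rfl⟩
    · right
      refine ⟨z, s, t, hz, hs, ?_, Or.inr hd⟩
      have h3 : ¬ (‖z‖ ≤ 3 → |frc (t - τ s)| < 1 / 2 - δ) := fun hc => hd ⟨hz, hs, hc⟩
      push Not at h3
      have hδ := h.pos
      exact h.G_hole z s t (by linarith [h3.1]) hs (by linarith [h3.2])

theorem GmM_tube (h : RibHom J κ κ' b b' ε₁ ε₂ τ δ G) {q : P} (hq : q ∈ Tube κ) (hb : q ∉ BoxS b) :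
    G q ∈ Tube κ' ∧ G q ∉ BoxS b' := by
  rcases tube_cases h.bun hq with ⟨z, s, t, hz, hs, rfl⟩ | ⟨l, v, t, hv, hl, rfl⟩
  · exact absurd ⟨z, s, t, by linarith, hs, rfl⟩ hb
  · rw [h.G_rest l v t hv hl]
    exact ⟨⟨l, v, t, hv, rfl⟩, rest_box h.bun' hv hl⟩

theorem g_mid (h : RibHom J κ κ' b b' ε₁ ε₂ τ δ G) {z : ℂ} {s t : ℝ} (hz : ‖z‖ < 4) (hs : 1 / 2 ≤ |s|)
    (hs1 : |s| < 1) : G.symm (b' (z, s, t)) = b (z, s, t) := by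
  rw [Equiv.symm_apply_eq, h.G_ends z s t hz hs hs1]

theorem g_hole (h : RibHom J κ κ' b b' ε₁ ε₂ τ δ G) {z : ℂ} {s t : ℝ} (hz : ‖z‖ ≤ 13 / 4) (hs : |s| < 1)
    (ht : 1 / 2 - 2 * δ ≤ |frc (t - τ s)|) : G.symm (b' (z, s, t)) = b (z, s, t) := by
  rw [Equiv.symm_apply_eq, h.G_hole z s t hz hs ht]

theorem good_back (h : RibHom J κ κ' b b' ε₁ ε₂ τ δ G) {a : ℂ × ℝ × ℝ} (ha : a ∈ DomJ τ δ)
    (hs : |a.2.1| < 3 / 4) : G.symm (b' a) ∈ Good κ b τ δ := by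
  obtain ⟨z, s, t⟩ := a
  simp only at hs
  have ha' := ha
  obtain ⟨hz, hs1, -⟩ := ha'
  simp only at hz hs1
  rcases le_or_gt (1 / 2) |s| with h2 | h2
  · rw [g_mid h hz h2 hs1]
    exact Or.inl ⟨(z, s, t), ha, hs, rfl⟩
  · by_cases hb : G.symm (b' (z, s, t)) ∈ BoxS b
    · rcases GmM_box h hb with h3 | ⟨z', s', t', hz', hs', he, h3⟩
      · exact Or.inl h3
      · exfalso
        rw [Equiv.apply_symm_apply] at he
        obtain ⟨e1, e2, m, e3⟩ := h.bun'.box.inj _ _ _ _ _ _ hz hs1 hz' hs' he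
        subst e1 e2
        rcases h3 with h3 | h3
        · linarith
        · apply h3
          rw [e3]
          have : t = (t + m) + ((-m : ℤ) : ℝ) := by push_cast; ring
          rw [this] at ha
          exact GmM_dom _ ha
    · right
      refine ⟨fun ht => ?_, hb⟩
      have h3 := (GmM_tube h ht hb).2
      rw [Equiv.apply_symm_apply] at h3
      exact h3 ⟨z, s, t, hz, hs1, rfl⟩

theorem good_new (h : RibHom J κ κ' b b' ε₁ ε₂ τ δ G) {p : P} (h1 : p ∉ BoxS b') (h2 : p ∉ Tube κ') :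
    G.symm p ∈ Good κ b τ δ := by
  by_cases hb : G.symm p ∈ BoxS b
  · rcases GmM_box h hb with h3 | ⟨z', s', t', hz', hs', he, h3⟩
    · exact Or.inl h3
    · exfalso
      rw [Equiv.apply_symm_apply] at he
      exact h1 ⟨z', s', t', hz', hs', he⟩
  · right
    refine ⟨fun ht => ?_, hb⟩
    have h3 := (GmM_tube h ht hb).1
    rw [Equiv.apply_symm_apply] at h3
    exact h2 h3

theorem Gm_img (D : TwinP J κ n j X) (h : RibHom J κ κ' b b' ε₁ ε₂ τ δ G) (hσ : DiscOK D b ε₁ ε₂ σ)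
    {a : ℂ × ℝ × ℝ} (ha : a ∈ DomJ τ δ) (hs : |a.2.1| < 3 / 4) :
    Gm D b b' ε₁ ε₂ σ τ δ G (Jm D b ε₁ ε₂ σ τ a) = Jt D b ε₁ ε₂ σ τ (G.symm (b' a)) := by
  have hJ : IsJ D b ε₁ ε₂ σ τ δ (Jm D b ε₁ ε₂ σ τ a) := ⟨a, ha, hs, rfl⟩
  unfold Gm
  rw [dif_pos hJ]
  obtain ⟨h1, h2, h3⟩ := hJ.choose_spec
  generalize hJ.choose = a' at h1 h2 h3
  obtain ⟨z, s, t⟩ := a
  obtain ⟨z', s', t'⟩ := a'
  obtain ⟨e1, e2, m, e3⟩ := Jm_inj D h.bun hσ τ h.pos ha h1 h3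
  subst e1 e2
  rw [e3, box_int h.bun'.box]

theorem Gm_out (D : TwinP J κ n j X) (b b' : ℂ × ℝ × ℝ → P) (ε₁ ε₂ σ : ℝ) (τ : ℝ → ℝ) (δ : ℝ)
    (G : Equiv.Perm P) {x : X} (hx : ¬ IsJ D b ε₁ ε₂ σ τ δ x) :
    Gm D b b' ε₁ ε₂ σ τ δ G x = x := by
  unfold Gm
  rw [dif_neg hx]

theorem Gm_ends (D : TwinP J κ n j X) (h : RibHom J κ κ' b b' ε₁ ε₂ τ δ G) (hσ : DiscOK D b ε₁ ε₂ σ)
    {a : ℂ × ℝ × ℝ} (ha : a ∈ DomJ τ δ) (hs : |a.2.1| < 3 / 4) (hs2 : 1 / 2 ≤ |a.2.1|) :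
    Gm D b b' ε₁ ε₂ σ τ δ G (Jm D b ε₁ ε₂ σ τ a) = Jm D b ε₁ ε₂ σ τ a := by
  rw [Gm_img D h hσ ha hs]
  obtain ⟨z, s, t⟩ := a
  rw [g_mid h ha.1 hs2 ha.2.1, Jt_box D h.bun σ τ t ha.1 hs]

theorem Gm_hole (D : TwinP J κ n j X) (h : RibHom J κ κ' b b' ε₁ ε₂ τ δ G) (hσ : DiscOK D b ε₁ ε₂ σ)
    {a : ℂ × ℝ × ℝ} (ha : a ∈ DomJ τ δ) (hs : |a.2.1| < 3 / 4) (hz : ‖a.1‖ ≤ 13 / 4)
    (ht : 1 / 2 - 2 * δ ≤ |frc (a.2.2 - τ a.2.1)|) :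
    Gm D b b' ε₁ ε₂ σ τ δ G (Jm D b ε₁ ε₂ σ τ a) = Jm D b ε₁ ε₂ σ τ a := by
  rw [Gm_img D h hσ ha hs]
  obtain ⟨z, s, t⟩ := a
  rw [g_hole h hz ha.2.1 ht, Jt_box D h.bun σ τ t ha.1 hs]

/-- a point of `Old` which is not an image of `Jm` is not a value of `Jt` on `Good` -/
theorem GmM_old (D : TwinP J κ n j X) (h : RibHom J κ κ' b b' ε₁ ε₂ τ δ G)
    {x : X} (hx : x ∈ Old D b) (hJ : ¬ IsJ D b ε₁ ε₂ σ τ δ x) {q : P} (hq : q ∈ Good κ b τ δ) :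
    x ≠ Jt D b ε₁ ε₂ σ τ q := by
  intro he
  rcases hq with ⟨⟨z, s, t⟩, ha, hs, rfl⟩ | ⟨h1, h2⟩
  · rw [Jt_box D h.bun σ τ t ha.1 hs] at he
    exact hJ ⟨(z, s, t), ha, hs, he⟩
  · have h3 : Jt D b ε₁ ε₂ σ τ q = D.A q := by
      apply Jt_out
      intro z s t hz hs hc
      exact h2 ⟨z, s, t, hz, by linarith, hc⟩
    have h4 : ¬ OnT κ q := fun hc => h1 (torus_tube hc)
    rw [h3] at he
    rcases hx with ⟨p, hp1, hp2, hp3⟩ | ⟨z, hz, hz2⟩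
    · rw [hp3] at he
      have h5 := D.A_inj _ _ hp1 h4 he
      rw [h5] at hp2
      rcases hp2 with hp2 | hp2
      · exact h2 hp2
      · exact h1 hp2
    · rw [hz2] at he
      exact A_Q_tube D h.bun.thick hz h1 he.symm

theorem Gm_Jt (D : TwinP J κ n j X) (h : RibHom J κ κ' b b' ε₁ ε₂ τ δ G) (hσ : DiscOK D b ε₁ ε₂ σ)
    {x : X} (hx : x ∈ Old D b) {q : P} (hq : q ∈ Good κ b τ δ)
    (hne : ∀ a ∈ DomJ τ δ, |a.2.1| < 3 / 4 → q ≠ G.symm (b' a)) :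
    Gm D b b' ε₁ ε₂ σ τ δ G x ≠ Jt D b ε₁ ε₂ σ τ q := by
  by_cases hJ : IsJ D b ε₁ ε₂ σ τ δ x
  · obtain ⟨a, ha, hs, rfl⟩ := hJ
    rw [Gm_img D h hσ ha hs]
    intro he
    exact hne a ha hs (Jt_inj D h.bun hσ τ h.pos (good_back h ha hs) hq he).symm
  · rw [Gm_out D b b' ε₁ ε₂ σ τ δ G hJ]
    exact GmM_old D h hx hJ hq

theorem Gm_inj (D : TwinP J κ n j X) (h : RibHom J κ κ' b b' ε₁ ε₂ τ δ G) (hσ : DiscOK D b ε₁ ε₂ σ)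
    {x x' : X} (hx : x ∈ Old D b) (hx' : x' ∈ Old D b)
    (he : Gm D b b' ε₁ ε₂ σ τ δ G x = Gm D b b' ε₁ ε₂ σ τ δ G x') : x = x' := by
  by_cases hJ : IsJ D b ε₁ ε₂ σ τ δ x
  · obtain ⟨a, ha, hs, rfl⟩ := hJ
    by_cases hJ' : IsJ D b ε₁ ε₂ σ τ δ x'
    · obtain ⟨a', ha', hs', rfl⟩ := hJ'
      rw [Gm_img D h hσ ha hs, Gm_img D h hσ ha' hs'] at he
      have h1 := Jt_inj D h.bun hσ τ h.pos (good_back h ha hs) (good_back h ha' hs') he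
      have h2 : b' a = b' a' := G.symm.injective h1
      obtain ⟨z, s, t⟩ := a
      obtain ⟨z', s', t'⟩ := a'
      obtain ⟨e1, e2, m, e3⟩ := h.bun'.box.inj _ _ _ _ _ _ ha.1 ha.2.1 ha'.1 ha'.2.1 h2
      subst e1 e2
      rw [e3, Jm_int D h.bun]
    · rw [Gm_out D b b' ε₁ ε₂ σ τ δ G hJ', Gm_img D h hσ ha hs] at he
      exact absurd he.symm (GmM_old D h hx' hJ' (good_back h ha hs))
  · rw [Gm_out D b b' ε₁ ε₂ σ τ δ G hJ] at he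
    by_cases hJ' : IsJ D b ε₁ ε₂ σ τ δ x'
    · obtain ⟨a', ha', hs', rfl⟩ := hJ'
      rw [Gm_img D h hσ ha' hs'] at he
      exact absurd he (GmM_old D h hx hJ (good_back h ha' hs'))
    · rw [Gm_out D b b' ε₁ ε₂ σ τ δ G hJ'] at he
      exact he

end Pool.Agent.RBH
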