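import Pool.Agent.RBH.GmM

/-!
# RBH/GmL: `Γ` is a local diffeomorphism at the points of `Old`   (difficulty 3)

* `Gm_id_ev`: `x ∈ Old`, not `IsJ`.  If `Γ y ≠ y` then (`Gm_out`, `Gm_ends`, `Gm_hole`) `y = Jm a` with `a = (z, s, t) ∈ DomJ`, `|s| < 1/2` and (`13/4 < ‖z‖` or
  `|frc (t - τ s)| < 1/2 - 2δ`); we may take `t ∈ [0, 1]` (`Jm_int`, `frc_add_int`, `Int.fract`).  So `y ∈ K₁ ∪ M₂`,
  `K₁ = Jm '' {‖z‖ ≤ 7/2, |s| ≤ 1/2, 0 ≤ t ≤ 1, (13/4 ≤ ‖z‖ ∨ |frc (t - τ s)| ≤ 1/2 - 2δ)}`: the set is compact and contained in `DomJ ∩ {|s| < 3/4}`, `Jm` is continuous on it (`Jm_loc`), so `K₁` is compact,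
  closed (`T2Space X`), and `x ∉ K₁` because `x` is not `IsJ`.  `M₂ = {Jm a : 7/2 ≤ ‖z‖ < 4, |s| ≤ 1/2}`, there `Jm a = D.A (b a)` (`Jm_out`).  It remains to find a neighbourhood of `x` which does
  not meet `M₂` :
  - `x = D.Q w`, `fh w ≠ 0`: the image under `D.Q` of the open set `fh ≠ 0` (`CSG.ld_image_nhds`; `fh` is continuous: RSG).  If `D.Q w' = D.A (b a)`, `‖z‖ < 3/2` (`Q_box`).
  - `x = D.A p₀`, `p₀` not on the torus, `p₀ = b a₀` in the box: let `V = {‖z‖ < 4, |s| < 1, z ≠ 1, z ≠ -1, (‖z‖ < 7/2 ∨ 1/2 < |s|)}` (open).  `a₀ ∈ V`: otherwise `7/2 ≤ ‖z₀‖`, `|s₀| ≤ 1/2`, `a₀ ∈ DomJ` and `x = Jm a₀`.  The image of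
    `V` under `D.A ∘ b` is a neighbourhood of `x` (`Ab_ld`); if `D.A (b a) = D.A (b a')`, `a' ∈ V`, then `z = z'`, `s = s'` (`Ab_inj`), contradiction.
  - `x = D.A p₀`, `p₀ ∈ Tube κ` not on the torus: the image of `Tube κ` minus the torus (open: `tube_open`, `torus_closed`) under `D.A`; if `D.A (b a) = D.A p'` then `b a = p' ∈ Tube κ`, `‖z‖ < 3/2`
    (`kap_box_norm`), contradiction.
* `Gm_ld`: if `IsJ x`, `x = Jm a`: for `a'` near `a`: `a' ∈ DomJ` (`DomJ_open`), `|s'| < 3/4`, `Γ (Jm a') = Jt (G.symm (b' a'))` (`Gm_img`).  `b'` is a local diffeomorphism at `a` (`bun'.box.loc`), `G.symm` at `b' a`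
  (`ld_symm`), `Jt` at `G.symm (b' a) ∈ Good` (`Jt_ld`), `Jm` at `a` (`Jm_loc`): `CSG.ld_of_comp_left`.  Otherwise `Gm_id_ev`, `CSG.ld_congr`, `CSG.ld_id`.
-/

open scoped Manifold ContDiff Topology
open Set Filter
open Complex (I)
open Pool.Agent.RSG (E4 S4 ex cj c1 c2 ht fh Vx)
open Pool.Agent.RBM

namespace Pool.Agent.RBH

variable {E : Type*} [NormedAddCommGroup E] [NormedSpace ℝ E] {H : Type*} [TopologicalSpace H]
  {J : ModelWithCorners ℝ E H}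
  {P : Type*} [TopologicalSpace P] [ChartedSpace H P] {κ κ' : ℝ × ℂ × ℝ → P} {b b' : ℂ × ℝ × ℝ → P}
  {X : Type*} [TopologicalSpace X] [ChartedSpace E4 X] {n j : ℤ} {ε₁ ε₂ σ δ : ℝ} {τ : ℝ → ℝ}
  {G : Equiv.Perm P}

/-- the compact set of the parameters -/
def GmL_K (τ : ℝ → ℝ) (δ : ℝ) : Set (ℂ × ℝ × ℝ) :=
  {a | ‖a.1‖ ≤ 7 / 2 ∧ |a.2.1| ≤ 1 / 2 ∧ 0 ≤ a.2.2 ∧ a.2.2 ≤ 1 ∧
    (13 / 4 ≤ ‖a.1‖ ∨ |frc (a.2.2 - τ a.2.1)| ≤ 1 / 2 - 2 * δ)}

theorem GmL_K_compact {τ : ℝ → ℝ} (hτ : Continuous τ) (δ : ℝ) : IsCompact (GmL_K τ δ) := by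
  have h1 : IsCompact ((Metric.closedBall (0 : ℂ) (7 / 2)) ×ˢ ((Metric.closedBall (0 : ℝ) (1 / 2)) ×ˢ
      (Set.Icc (0 : ℝ) 1))) :=
    (isCompact_closedBall _ _).prod ((isCompact_closedBall _ _).prod isCompact_Icc)
  refine h1.of_isClosed_subset ?_ ?_
  · have hc1 : Continuous fun a : ℂ × ℝ × ℝ => ‖a.1‖ := by fun_prop
    have hc2 : Continuous fun a : ℂ × ℝ × ℝ => |a.2.1| := by fun_prop
    have hc3 : Continuous fun a : ℂ × ℝ × ℝ => a.2.2 := by fun_prop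
    have hc4 : Continuous fun a : ℂ × ℝ × ℝ => a.2.2 - τ a.2.1 := by fun_prop
    have hc5 : Continuous fun a : ℂ × ℝ × ℝ => |frc (a.2.2 - τ a.2.1)| := frc_abs_cont.comp hc4
    refine (isClosed_le hc1 continuous_const).inter ((isClosed_le hc2 continuous_const).inter
      ((isClosed_le continuous_const hc3).inter ((isClosed_le hc3 continuous_const).inter ?_)))
    exact (isClosed_le continuous_const hc1).union (isClosed_le hc5 continuous_const)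
  · rintro ⟨z, s, t⟩ ⟨h2, h3, h4, h5, -⟩
    refine ⟨?_, ?_, h4, h5⟩
    · rw [mem_closedBall_zero_iff]; exact h2
    · rw [mem_closedBall_zero_iff, Real.norm_eq_abs]; exact h3

theorem GmL_K_dom {τ : ℝ → ℝ} {δ : ℝ} (hδ : 0 < δ) {a : ℂ × ℝ × ℝ} (ha : a ∈ GmL_K τ δ) :
    a ∈ DomJ τ δ ∧ |a.2.1| < 3 / 4 := by
  obtain ⟨h1, h2, -, -, h3⟩ := ha
  refine ⟨⟨by linarith, by linarith, fun h4 => ?_⟩, by linarith⟩
  rcases h3 with h3 | h3
  · linarith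
  · linarith

/-- a neighbourhood of `x` which does not meet the images of the points with `7/2 ≤ ‖z‖`, `|s| ≤ 1/2` -/
theorem GmL_nhd [T2Space P] (D : TwinP J κ n j X) (h : RibHom J κ κ' b b' ε₁ ε₂ τ δ G)
    {x : X} (hx : x ∈ Old D b) (hJ : ¬ IsJ D b ε₁ ε₂ σ τ δ x) :
    ∃ U ∈ 𝓝 x, ∀ (z : ℂ) (s t : ℝ), 7 / 2 ≤ ‖z‖ → ‖z‖ < 4 → |s| ≤ 1 / 2 → D.A (b (z, s, t)) ∉ U := by
  rcases hx with ⟨p, hp, hpb | hpt, rfl⟩ | ⟨w, hw, rfl⟩
  · obtain ⟨z₀, s₀, t₀, hz₀, hs₀, rfl⟩ := hpb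
    have hne : z₀ ≠ 1 ∧ z₀ ≠ -1 := by
      constructor
      · intro hc
        exact hp ((box_torus h.bun hz₀ hs₀).2 (Or.inl hc))
      · intro hc
        exact hp ((box_torus h.bun hz₀ hs₀).2 (Or.inr hc))
    have hV : IsOpen {a : ℂ × ℝ × ℝ | ‖a.1‖ < 4 ∧ |a.2.1| < 1 ∧ a.1 ≠ 1 ∧ a.1 ≠ -1 ∧
        (‖a.1‖ < 7 / 2 ∨ 1 / 2 < |a.2.1|)} := by
      have hc1 : Continuous fun a : ℂ × ℝ × ℝ => ‖a.1‖ := by fun_prop
      have hc2 : Continuous fun a : ℂ × ℝ × ℝ => |a.2.1| := by fun_prop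
      have hc3 : Continuous fun a : ℂ × ℝ × ℝ => a.1 := by fun_prop
      refine (isOpen_lt hc1 continuous_const).inter ((isOpen_lt hc2 continuous_const).inter
        ((isOpen_ne_fun hc3 continuous_const).inter ((isOpen_ne_fun hc3 continuous_const).inter ?_)))
      exact (isOpen_lt hc1 continuous_const).union (isOpen_lt continuous_const hc2)
    have hmem : (z₀, s₀, t₀) ∈ {a : ℂ × ℝ × ℝ | ‖a.1‖ < 4 ∧ |a.2.1| < 1 ∧ a.1 ≠ 1 ∧ a.1 ≠ -1 ∧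
        (‖a.1‖ < 7 / 2 ∨ 1 / 2 < |a.2.1|)} := by
      refine ⟨hz₀, hs₀, hne.1, hne.2, ?_⟩
      by_contra hcon
      push Not at hcon
      obtain ⟨h1, h2⟩ := hcon
      simp only at h1 h2
      apply hJ
      refine ⟨(z₀, s₀, t₀), ⟨hz₀, hs₀, fun h3 => ?_⟩, ?_, ?_⟩
      · simp only at h3; linarith
      · simp only; linarith
      · rw [Jm_out D b ε₁ ε₂ σ τ (a := (z₀, s₀, t₀)) (by simp only; linarith)]
    refine ⟨(fun a => D.A (b a)) '' _, CSG.ld_image_nhds (Ab_ld D h.bun hz₀ hs₀ hne.1 hne.2)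
      (hV.mem_nhds hmem), ?_⟩
    rintro z s t h1 h2 h3 ⟨⟨z', s', t'⟩, ⟨g1, g2, g3, g4, g5⟩, he⟩
    simp only at g1 g2 g3 g4 g5 he
    have hne2 := JmB_ne (z := z) (by linarith)
    obtain ⟨e1, e2, -⟩ := Ab_inj D h.bun g1 g2 g3 g4 h2 (by linarith) hne2.1 hne2.2 he
    subst e1 e2
    rcases g5 with g5 | g5 <;> linarith
  · have hV : IsOpen (Tube κ ∩ {q : P | ¬ OnT κ q}) :=
      (tube_open h.bun.thick).inter (torus_closed h.bun.thick).isOpen_compl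
    refine ⟨D.A '' (Tube κ ∩ {q : P | ¬ OnT κ q}), CSG.ld_image_nhds (D.A_loc p hp)
      (hV.mem_nhds ⟨hpt, hp⟩), ?_⟩
    rintro z s t h1 h2 h3 ⟨q, ⟨hq1, hq2⟩, he⟩
    have hne2 := JmB_ne (z := z) (by linarith)
    have h4 := D.A_inj _ _ hq2 (DCa_not h.bun h2 (by linarith) hne2.1 hne2.2) he
    obtain ⟨l, v, t', hv, hq3⟩ := hq1
    rw [hq3] at h4
    have h5 := kap_box_norm h.bun hv h2 (by linarith) h4
    linarith
  · have hV : IsOpen {z : S4 | fh z ≠ 0} :=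
      isOpen_ne_fun Pool.Agent.RSG.fh_smooth.continuous continuous_const
    refine ⟨D.Q '' {z : S4 | fh z ≠ 0}, CSG.ld_image_nhds (D.Q_loc w hw) (hV.mem_nhds hw), ?_⟩
    rintro z s t h1 h2 h3 ⟨w', hw', he⟩
    have hne2 := JmB_ne (z := z) (by linarith)
    have h5 := Q_box D h.bun hw' h2 (by linarith) (DCa_not h.bun h2 (by linarith) hne2.1 hne2.2) he
    linarith

theorem Gm_id_ev [T2Space P] [T2Space X] (D : TwinP J κ n j X) (h : RibHom J κ κ' b b' ε₁ ε₂ τ δ G)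
    (hσ : DiscOK D b ε₁ ε₂ σ) {x : X} (hx : x ∈ Old D b) (hJ : ¬ IsJ D b ε₁ ε₂ σ τ δ x) :
    ∀ᶠ y in 𝓝 x, Gm D b b' ε₁ ε₂ σ τ δ G y = y := by
  obtain ⟨U, hU, hU2⟩ := GmL_nhd (σ := σ) D h hx hJ
  have hK1 : IsCompact (Jm D b ε₁ ε₂ σ τ '' GmL_K τ δ) := by
    refine (GmL_K_compact h.tau.continuous δ).image_of_continuousOn ?_
    intro a ha
    exact (CSG.ld_continuousAt (Jm_loc D h.bun hσ h.tau h.pos
      (GmL_K_dom h.pos ha).1)).continuousWithinAt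
  have hxK : x ∉ Jm D b ε₁ ε₂ σ τ '' GmL_K τ δ := by
    rintro ⟨a, ha, rfl⟩
    exact hJ ⟨a, (GmL_K_dom h.pos ha).1, (GmL_K_dom h.pos ha).2, rfl⟩
  filter_upwards [hK1.isClosed.isOpen_compl.mem_nhds hxK, hU] with y hy1 hy2
  by_cases hJy : IsJ D b ε₁ ε₂ σ τ δ y
  · obtain ⟨⟨z, s, t⟩, ha, hs, rfl⟩ := hJy
    simp only at hs
    rcases le_or_gt (1 / 2) |s| with h2 | h2
    · exact Gm_ends D h hσ ha hs h2
    · by_cases h3 : ‖z‖ ≤ 13 / 4 ∧ 1 / 2 - 2 * δ ≤ |frc (t - τ s)|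
      · exact Gm_hole D h hσ ha hs h3.1 h3.2
      · exfalso
        rcases le_or_gt (7 / 2) ‖z‖ with h4 | h4
        · rw [Jm_out D b ε₁ ε₂ σ τ (a := (z, s, t)) (by simp only; linarith)] at hy2
          exact hU2 z s t h4 ha.1 h2.le hy2
        · apply hy1
          refine ⟨(z, s, Int.fract t), ⟨h4.le, h2.le, Int.fract_nonneg t, (Int.fract_lt_one t).le, ?_⟩, ?_⟩
          · simp only
            by_cases h5 : ‖z‖ ≤ 13 / 4
            · right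
              have h6 : |frc (t - τ s)| < 1 / 2 - 2 * δ := by
                by_contra hc
                push Not at hc
                exact h3 ⟨h5, hc⟩
              have h7 : t - τ s = (Int.fract t - τ s) + (⌊t⌋ : ℤ) := by
                have := Int.floor_add_fract t
                linarith
              rw [h7, frc_add_int] at h6
              exact h6.le
            · left
              push Not at h5
              exact h5.le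
          · have h7 : t = Int.fract t + (⌊t⌋ : ℤ) := (Int.fract_add_floor t).symm
            conv_rhs => rw [h7]
            rw [Jm_int D h.bun]
  · exact Gm_out D b b' ε₁ ε₂ σ τ δ G hJy

theorem Gm_ld [T2Space P] [T2Space X] (D : TwinP J κ n j X) (h : RibHom J κ κ' b b' ε₁ ε₂ τ δ G)
    (hσ : DiscOK D b ε₁ ε₂ σ) {x : X} (hx : x ∈ Old D b) :
    IsLocalDiffeomorphAt (𝓡 4) (𝓡 4) ∞ (Gm D b b' ε₁ ε₂ σ τ δ G) x := by
  by_cases hJ : IsJ D b ε₁ ε₂ σ τ δ x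
  · obtain ⟨⟨z, s, t⟩, ha, hs, rfl⟩ := hJ
    refine CSG.ld_of_comp_left (f := Jm D b ε₁ ε₂ σ τ) (g := Gm D b b' ε₁ ε₂ σ τ δ G)
      (x := (z, s, t)) ?_ (Jm_loc D h.bun hσ h.tau h.pos ha)
    have h1 := h.bun'.box.loc z s t ha.1 ha.2.1
    have h2 : IsLocalDiffeomorphAt J J ∞ G.symm (b' (z, s, t)) := by
      have := ld_symm (h.G_ld (G.symm (b' (z, s, t))))
      rw [Equiv.apply_symm_apply] at this
      exact this
    have h3 := Jt_ld D h.bun hσ h.tau h.pos (good_back h ha hs)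
    have h12 : IsLocalDiffeomorphAt 𝓘(ℝ, ℂ × ℝ × ℝ) J ∞ (G.symm ∘ b') (z, s, t) :=
      IsLocalDiffeomorphAt.comp (hf := h1) (hg := h2) ..
    have h123 : IsLocalDiffeomorphAt 𝓘(ℝ, ℂ × ℝ × ℝ) (𝓡 4) ∞ (Jt D b ε₁ ε₂ σ τ ∘ (G.symm ∘ b'))
        (z, s, t) := IsLocalDiffeomorphAt.comp (hf := h12) (hg := h3) ..
    refine CSG.ld_congr h123 ?_
    have hc2 : Continuous fun a : ℂ × ℝ × ℝ => |a.2.1| := by fun_prop
    filter_upwards [(DomJ_open h.tau.continuous δ).mem_nhds ha,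
      (isOpen_lt hc2 continuous_const).mem_nhds hs] with a ha1 ha2
    simp only [Function.comp]
    exact Gm_img D h hσ ha1 ha2
  · exact CSG.ld_congr (CSG.ld_id x) (Gm_id_ev D h hσ hx hJ)

end Pool.Agent.RBH
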