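import Pool.Agent.RBH.Defs
import Pool.Agent.RBM.TorP

/-!
# RBH/QpM: points of the twin   (difficulty 2)

`Q_phase2`: as `RBM.Q_phase` (RBM/JmB), with the norm: if `c1 z ≠ 0`, `c2 z ≠ 0`: `RSG.exists_phase n j z` gives `l, m, t`, `D.glue`:
`D.Q z = D.A (κ (l, (2 ‖c1‖ ‖c2‖ : ℝ) * ex m, t))`, `‖v‖ = 2 ‖c1 z‖ ‖c2 z‖` (`‖ex m‖ = 1`), which is `< 1` (`RSG.glue_norm`) and `> 0`.
`A_Q`: `p` not on the torus, `D.A p = D.Q z`: the case `c1 z = 0 ∨ c2 z = 0` is excluded by `D.disj`; otherwise `Q_phase2` and `D.A_inj`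
(`κ (l, v, t)` is not on the torus, `kap_not`).
-/

open scoped Manifold ContDiff Topology
open Set Filter
open Complex (I)
open Pool.Agent.RSG (E4 S4 ex cj c1 c2 ht fh Vx)
open Pool.Agent.RBM

namespace Pool.Agent.RBH

variable {E : Type*} [NormedAddCommGroup E] [NormedSpace ℝ E] {H : Type*} [TopologicalSpace H]
  {J : ModelWithCorners ℝ E H}
  {P : Type*} [TopologicalSpace P] [ChartedSpace H P] {κ κ' : ℝ × ℂ × ℝ → P} {b b' : ℂ × ℝ × ℝ → P}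
  {X : Type*} [TopologicalSpace X] [ChartedSpace E4 X] {n j : ℤ} {ε₁ ε₂ σ δ : ℝ} {τ : ℝ → ℝ}
  {G : Equiv.Perm P}

theorem Q_phase2 (D : TwinP J κ n j X) (h : ThickT J κ) {z : S4} (hz : fh z ≠ 0) :
    (c1 z = 0 ∨ c2 z = 0) ∨ ∃ (l : ℝ) (v : ℂ) (t : ℝ), v ≠ 0 ∧ ‖v‖ < 1 ∧ ‖v‖ = 2 * ‖c1 z‖ * ‖c2 z‖ ∧
      D.Q z = D.A (κ (l, v, t)) ∧ ¬ OnT κ (κ (l, v, t)) := by
  by_cases hc : c1 z = 0 ∨ c2 z = 0
  · exact Or.inl hc
  · right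
    push Not at hc
    obtain ⟨l, m, t, e1, e2, e3⟩ := Pool.Agent.RSG.exists_phase n j z
    have e1' : c1 z = ‖c1 z‖ * ex (m + (1 - j) * t) := by
      rw [← sub_eq_zero]
      have := sub_eq_zero.mpr e1
      convert this using 3
      push_cast
      ring_nf
    have e2' : c2 z = ‖c2 z‖ * ex (m - j * t) := by
      rw [← sub_eq_zero]
      have := sub_eq_zero.mpr e2
      convert this using 3
      push_cast
      ring_nf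
    have hg := D.glue z l m t hz hc.1 hc.2 e1' e2' e3
    have hv1 := Pool.Agent.RSG.glue_norm hz m
    have hv0 : ((2 * ‖c1 z‖ * ‖c2 z‖ : ℝ) : ℂ) * ex m ≠ 0 := by
      apply mul_ne_zero _ (Pool.Agent.RSG.ex_ne m)
      have := norm_pos_iff.2 hc.1
      have := norm_pos_iff.2 hc.2
      exact_mod_cast (by positivity : (2 * ‖c1 z‖ * ‖c2 z‖ : ℝ) ≠ 0)
    have hv2 : ‖((2 * ‖c1 z‖ * ‖c2 z‖ : ℝ) : ℂ) * ex m‖ = 2 * ‖c1 z‖ * ‖c2 z‖ := by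
      rw [norm_mul, Pool.Agent.RSG.ex_norm, mul_one, Complex.norm_real, Real.norm_eq_abs,
        abs_of_nonneg (by positivity)]
    exact ⟨l, _, t, hv0, hv1, hv2, hg, kap_not h t hv0 hv1⟩

theorem A_Q (D : TwinP J κ n j X) (h : ThickT J κ) {z : S4} (hz : fh z ≠ 0) {p : P} (hp : ¬ OnT κ p)
    (he : D.A p = D.Q z) : ∃ (l : ℝ) (v : ℂ) (t : ℝ), v ≠ 0 ∧ ‖v‖ < 1 ∧ ‖v‖ = 2 * ‖c1 z‖ * ‖c2 z‖ ∧
      p = κ (l, v, t) := by
  rcases Q_phase2 D h hz with hc | ⟨l, v, t, h0, h1, h2, hQ, hn⟩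
  · exact absurd he.symm (D.disj z _ hz hc hp)
  · rw [hQ] at he
    exact ⟨l, v, t, h0, h1, h2, D.A_inj _ _ hp hn he⟩

theorem A_Q_tube (D : TwinP J κ n j X) (h : ThickT J κ) {z : S4} (hz : fh z ≠ 0) {p : P} (hp : p ∉ Tube κ) :
    D.A p ≠ D.Q z := by
  intro he
  have hp' : ¬ OnT κ p := by
    rintro ⟨l, t, rfl⟩
    exact hp ⟨l, 0, t, by simp, rfl⟩
  obtain ⟨l, v, t, -, h1, -, rfl⟩ := A_Q D h hz hp' he
  exact hp ⟨l, v, t, h1, rfl⟩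

end Pool.Agent.RBH
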