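import Pool.Agent.RBH.ClM
import Pool.Agent.RBH.QpM

/-!
# RBH/JtM: the map `Jt`   (difficulty 3)

* `Jt_box`: the point chosen in the definition of `Jt` is `(z, s, t + m)` by `h.box.inj`; `Jm` has period 1 in `t` (`Jm_per`, iterated over the
  integers: `Jm_int`).
* `Jt_out`: definition.  `Jt_far`: `3 ≤ ‖z‖`: if `|s| < 3/4`, `Jt_box` and `Jm_out`; otherwise `Jt_out` (`h.box.inj`).
* `Good_notT`: a point of `Good` is not on the torus, if it is not `b (±1, s, t)`; precisely: if `p ∈ Good` is not in the box then it is not on the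
  torus (`torus_tube`).
* `Jt_inj`: `p, p' ∈ Good`, same value.
  - both in the box: `Jt_box`, `Jm_inj`, period of `b`.
  - both outside the box and the tube: `Jt = D.A` (`Jt_out`), `D.A_inj`.
  - `p = b a`, `a ∈ DomJ`, `p'` outside: `Jm a = D.A p'`.  If `3 ≤ ‖a.1‖`: `Jm_out`: `D.A (b a) = D.A p'`, `b a` is not on the torus (`box_torus`, `z ≠ ±1`), so `b a = p'`: `p'` would be in
    the box.  If `‖a.1‖ < 3`: `Jm_inn`: the value is in `Inn D b 3`: either `D.A (b a')` with `b a'` not on the torus: `b a' = p'` again; or `D.Q z`: `A_Q_tube`.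
* `Jt_ld`: `p = b a`, `a ∈ DomJ`, `|s| < 3/4`: for `a'` near `a`: `a' ∈ DomJ` (`DomJ_open`), `|s'| < 3/4`, `Jt (b a') = Jm a'` (`Jt_box`), so `Jt ∘ b = Jm` near `a`; `b` and `Jm`
  (`Jm_loc`) are local diffeomorphisms at `a`: `CSG.ld_of_comp_left`.  `p` outside the box and the tube: `C = {b (z, s, t) : ‖z‖ ≤ 3, |s| ≤ 3/4}` is closed (`box_closed`) and does
  not contain `p`; for `p'` near `p`, `p' ∉ C`: `Jt p' = D.A p'` (if `p' = b (z, s, t)`, `‖z‖ < 4`, `|s| < 3/4`, then `3 < ‖z‖`: `Jt_far`; otherwise `Jt_out`).  `D.A_loc`.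
* `DomJ_open`: `{‖a.1‖ < 4 ∧ |s| < 1} ∩ ({3 < ‖z‖} ∪ {|frc (t - τ s)| < 1/2 - δ})`, `|frc|` is continuous (`frc_abs_cont`).
-/

open scoped Manifold ContDiff Topology
open Set Filter
open Complex (I)
open Pool.Agent.RSG (E4 S4 ex cj c1 c2 ht fh Vx)
open Pool.Agent.RBM

namespace Pool.Agent.RBH

variable {E : Type*} [NormedAddCommGroup E] [NormedSpace ℝ E] {H : Type*} [TopologicalSpace H]
  {J : ModelWithCorners ℝ E H}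
  {P : Type*} [TopologicalSpace P] [ChartedSpace H P] {κ κ' : ℝ × ℂ × ℝ → P} {b b' : ℂ × ℝ × ℝ → P}
  {X : Type*} [TopologicalSpace X] [ChartedSpace E4 X] {n j : ℤ} {ε₁ ε₂ σ δ : ℝ} {τ : ℝ → ℝ}
  {G : Equiv.Perm P}

theorem DomJ_open (hτ : Continuous τ) (δ : ℝ) : IsOpen (DomJ τ δ) := by
  have e : DomJ τ δ = {a : ℂ × ℝ × ℝ | ‖a.1‖ < 4} ∩ {a : ℂ × ℝ × ℝ | |a.2.1| < 1} ∩
      ({a : ℂ × ℝ × ℝ | 3 < ‖a.1‖} ∪ {a : ℂ × ℝ × ℝ | |frc (a.2.2 - τ a.2.1)| < 1 / 2 - δ}) := by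
    ext a
    constructor
    · rintro ⟨h1, h2, h3⟩
      refine ⟨⟨h1, h2⟩, ?_⟩
      rcases lt_or_ge 3 ‖a.1‖ with h4 | h4
      · exact Or.inl h4
      · exact Or.inr (h3 h4)
    · rintro ⟨⟨h1, h2⟩, h3⟩
      refine ⟨h1, h2, fun h4 => ?_⟩
      rcases h3 with h5 | h5
      · exact absurd h5 (not_lt.2 h4)
      · exact h5
  rw [e]
  have c0 : Continuous fun a : ℂ × ℝ × ℝ => ‖a.1‖ := by fun_prop
  have c1 : Continuous fun a : ℂ × ℝ × ℝ => |a.2.1| := by fun_prop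
  have c2 : Continuous fun a : ℂ × ℝ × ℝ => a.2.2 - τ a.2.1 := by fun_prop
  have c3 : Continuous fun a : ℂ × ℝ × ℝ => |frc (a.2.2 - τ a.2.1)| := frc_abs_cont.comp c2
  exact ((isOpen_lt c0 continuous_const).inter (isOpen_lt c1 continuous_const)).inter
    ((isOpen_lt continuous_const c0).union (isOpen_lt c3 continuous_const))

theorem Jm_int (D : TwinP J κ n j X) (h : Bundle J κ b ε₁ ε₂) (σ : ℝ) (τ : ℝ → ℝ) (z : ℂ) (s t : ℝ) (m : ℤ) :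
    Jm D b ε₁ ε₂ σ τ (z, s, t + m) = Jm D b ε₁ ε₂ σ τ (z, s, t) :=
  TorP_per (f := fun x => Jm D b ε₁ ε₂ σ τ (z, s, x)) (fun x => Jm_per D h σ τ z s x) t m

theorem Jt_box (D : TwinP J κ n j X) (h : Bundle J κ b ε₁ ε₂) (σ : ℝ) (τ : ℝ → ℝ) {z : ℂ} {s : ℝ} (t : ℝ)
    (hz : ‖z‖ < 4) (hs : |s| < 3 / 4) :
    Jt D b ε₁ ε₂ σ τ (b (z, s, t)) = Jm D b ε₁ ε₂ σ τ (z, s, t) := by
  have hex : ∃ a : ℂ × ℝ × ℝ, ‖a.1‖ < 4 ∧ |a.2.1| < 3 / 4 ∧ b (z, s, t) = b a := ⟨(z, s, t), hz, hs, rfl⟩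
  unfold Jt
  rw [dif_pos hex]
  obtain ⟨h1, h2, h3⟩ := hex.choose_spec
  obtain ⟨a, ha⟩ : ∃ a, a = hex.choose := ⟨_, rfl⟩
  rw [← ha] at h1 h2 h3 ⊢
  obtain ⟨z', s', t'⟩ := a
  simp only at h1 h2
  obtain ⟨e1, e2, m, e3⟩ := h.box.inj _ _ _ _ _ _ hz (by linarith) h1 (by linarith) h3
  subst e1 e2 e3
  exact Jm_int D h σ τ z s t m

theorem Jt_out (D : TwinP J κ n j X) (b : ℂ × ℝ × ℝ → P) (ε₁ ε₂ σ : ℝ) (τ : ℝ → ℝ) {p : P}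
    (hp : ∀ (z : ℂ) (s t : ℝ), ‖z‖ < 4 → |s| < 3 / 4 → p ≠ b (z, s, t)) :
    Jt D b ε₁ ε₂ σ τ p = D.A p := by
  unfold Jt
  rw [dif_neg]
  rintro ⟨⟨z, s, t⟩, h1, h2, h3⟩
  exact hp z s t h1 h2 h3

/-- the part `3/4 ≤ |s|` of the box -/
theorem Jt_end (D : TwinP J κ n j X) (h : Bundle J κ b ε₁ ε₂) (σ : ℝ) (τ : ℝ → ℝ) {z : ℂ} {s : ℝ} (t : ℝ)
    (hz : ‖z‖ < 4) (hs : 3 / 4 ≤ |s|) (hs1 : |s| < 1) :
    Jt D b ε₁ ε₂ σ τ (b (z, s, t)) = D.A (b (z, s, t)) := by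
  apply Jt_out
  intro z' s' t' hz' hs' he
  obtain ⟨-, e2, -⟩ := h.box.inj _ _ _ _ _ _ hz hs1 hz' (by linarith) he
  subst e2
  linarith

theorem Jt_far (D : TwinP J κ n j X) (h : Bundle J κ b ε₁ ε₂) (σ : ℝ) (τ : ℝ → ℝ) {z : ℂ} {s : ℝ} (t : ℝ)
    (h3 : 3 ≤ ‖z‖) (hz : ‖z‖ < 4) (hs : |s| < 1) :
    Jt D b ε₁ ε₂ σ τ (b (z, s, t)) = D.A (b (z, s, t)) := by
  rcases lt_or_ge |s| (3 / 4) with h1 | h1
  · rw [Jt_box D h σ τ t hz h1, Jm_out D b ε₁ ε₂ σ τ (a := (z, s, t)) h3]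
  · exact Jt_end D h σ τ t hz h1 hs

theorem JtM_not (h : Bundle J κ b ε₁ ε₂) {z : ℂ} {s t : ℝ} (h3 : 3 ≤ ‖z‖) (hz : ‖z‖ < 4) (hs : |s| < 1) :
    ¬ OnT κ (b (z, s, t)) := by
  rw [box_torus h hz hs]
  have hne := JmB_ne (z := z) (by linarith)
  exact not_or.mpr hne

/-- the mixed case of `Jt_inj` -/
theorem JtM_mixed (D : TwinP J κ n j X) (h : Bundle J κ b ε₁ ε₂) (hσ : DiscOK D b ε₁ ε₂ σ) (τ : ℝ → ℝ)
    {a : ℂ × ℝ × ℝ} (ha : a ∈ DomJ τ δ) {p : P} (hp : p ∉ Tube κ)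
    (hp' : p ∉ BoxS b) (he : Jm D b ε₁ ε₂ σ τ a = D.A p) : False := by
  obtain ⟨z, s, t⟩ := a
  obtain ⟨hz, hs, hf⟩ := ha
  simp only at hz hs hf
  have hpT : ¬ OnT κ p := fun hh => hp (torus_tube hh)
  rcases le_or_gt 3 ‖z‖ with h3 | h3
  · rw [Jm_out D b ε₁ ε₂ σ τ (a := (z, s, t)) h3] at he
    have := D.A_inj _ _ (JtM_not h h3 hz hs) hpT he
    exact hp' ⟨z, s, t, hz, hs, this.symm⟩
  · have h4 := Jm_inn D h hσ τ t h3 hs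
    rw [he] at h4
    rcases h4 with ⟨z', s', t', h5, h6, h7, h8⟩ | ⟨w, h5, h6⟩
    · have := D.A_inj _ _ hpT h7 h8
      exact hp' ⟨z', s', t', by linarith, h6, this⟩
    · exact A_Q_tube D h.thick h5 hp h6

theorem JtM_val_box (D : TwinP J κ n j X) (h : Bundle J κ b ε₁ ε₂) (σ : ℝ) (τ : ℝ → ℝ) {a : ℂ × ℝ × ℝ}
    (hz : ‖a.1‖ < 4) (hs : |a.2.1| < 3 / 4) :
    Jt D b ε₁ ε₂ σ τ (b a) = Jm D b ε₁ ε₂ σ τ a := by
  obtain ⟨z, s, t⟩ := a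
  exact Jt_box D h σ τ t hz hs

theorem JtM_val_out (D : TwinP J κ n j X) (b : ℂ × ℝ × ℝ → P) (ε₁ ε₂ σ : ℝ) (τ : ℝ → ℝ) {p : P}
    (hp : p ∉ BoxS b) : Jt D b ε₁ ε₂ σ τ p = D.A p := by
  apply Jt_out
  intro z s t hz hs he
  exact hp ⟨z, s, t, hz, by linarith, he⟩

theorem Jt_inj (D : TwinP J κ n j X) (h : Bundle J κ b ε₁ ε₂) (hσ : DiscOK D b ε₁ ε₂ σ) (τ : ℝ → ℝ)
    (hδ : 0 < δ) {p p' : P} (hp : p ∈ Good κ b τ δ) (hp' : p' ∈ Good κ b τ δ)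
    (he : Jt D b ε₁ ε₂ σ τ p = Jt D b ε₁ ε₂ σ τ p') : p = p' := by
  rcases hp with ⟨a, ha, hs, rfl⟩ | ⟨h1, h2⟩
  · rcases hp' with ⟨a', ha', hs', rfl⟩ | ⟨h1', h2'⟩
    · rw [JtM_val_box D h σ τ ha.1 hs, JtM_val_box D h σ τ ha'.1 hs'] at he
      obtain ⟨z, s, t⟩ := a
      obtain ⟨z', s', t'⟩ := a'
      obtain ⟨e1, e2, m, e3⟩ := Jm_inj D h hσ τ hδ ha ha' he
      subst e1 e2 e3
      exact (box_int h.box z s t m).symm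
    · rw [JtM_val_box D h σ τ ha.1 hs, JtM_val_out D b ε₁ ε₂ σ τ h2'] at he
      exact (JtM_mixed D h hσ τ ha h1' h2' he).elim
  · rcases hp' with ⟨a', ha', hs', rfl⟩ | ⟨h1', h2'⟩
    · rw [JtM_val_box D h σ τ ha'.1 hs', JtM_val_out D b ε₁ ε₂ σ τ h2] at he
      exact (JtM_mixed D h hσ τ ha' h1 h2 he.symm).elim
    · rw [JtM_val_out D b ε₁ ε₂ σ τ h2, JtM_val_out D b ε₁ ε₂ σ τ h2'] at he
      exact D.A_inj _ _ (fun hh => h1 (torus_tube hh)) (fun hh => h1' (torus_tube hh)) he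

theorem Jt_ld [T2Space P] (D : TwinP J κ n j X) (h : Bundle J κ b ε₁ ε₂) (hσ : DiscOK D b ε₁ ε₂ σ)
    (hτ : ContDiff ℝ ∞ τ) (hδ : 0 < δ) {p : P} (hp : p ∈ Good κ b τ δ) :
    IsLocalDiffeomorphAt J (𝓡 4) ∞ (Jt D b ε₁ ε₂ σ τ) p := by
  rcases hp with ⟨a, ha, hs, rfl⟩ | ⟨h1, h2⟩
  · have h3 : IsLocalDiffeomorphAt 𝓘(ℝ, ℂ × ℝ × ℝ) J ∞ b a := by
      obtain ⟨z, s, t⟩ := a
      exact h.box.loc z s t ha.1 ha.2.1
    refine Pool.Agent.CSG.ld_of_comp_left ?_ h3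
    refine Pool.Agent.CSG.ld_congr (Jm_loc D h hσ hτ hδ ha) ?_
    have e1 : ∀ᶠ a' in 𝓝 a, a' ∈ DomJ τ δ := (DomJ_open hτ.continuous δ).mem_nhds ha
    have c1 : Continuous fun a : ℂ × ℝ × ℝ => |a.2.1| := by fun_prop
    have e2 : ∀ᶠ a' : ℂ × ℝ × ℝ in 𝓝 a, |a'.2.1| < 3 / 4 := c1.continuousAt.eventually_lt_const hs
    filter_upwards [e1, e2] with a' h5 h6
    exact JtM_val_box D h σ τ h5.1 h6
  · refine Pool.Agent.CSG.ld_congr (D.A_loc p (fun hh => h1 (torus_tube hh))) ?_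
    have hC := box_closed h.box (r₀ := 3) (s₀ := 3 / 4) (by norm_num) (by norm_num)
    have hpC : p ∈ {p : P | ∃ (z : ℂ) (s t : ℝ), ‖z‖ ≤ 3 ∧ |s| ≤ 3 / 4 ∧ p = b (z, s, t)}ᶜ := by
      rintro ⟨z, s, t, h3, h4, h5⟩
      exact h2 ⟨z, s, t, by linarith, by linarith, h5⟩
    filter_upwards [hC.isOpen_compl.mem_nhds hpC] with p' hp'
    by_cases hex : ∃ (z : ℂ) (s t : ℝ), ‖z‖ < 4 ∧ |s| < 3 / 4 ∧ p' = b (z, s, t)
    · obtain ⟨z, s, t, h3, h4, rfl⟩ := hex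
      have h5 : 3 ≤ ‖z‖ := by
        by_contra hc
        push Not at hc
        exact hp' ⟨z, s, t, hc.le, h4.le, rfl⟩
      exact Jt_far D h σ τ t h5 h3 (by linarith)
    · apply Jt_out
      intro z s t h3 h4 h5
      exact hex ⟨z, s, t, h3, h4, h5⟩

end Pool.Agent.RBH
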