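import Pool.Agent.RBH.Defs
import Pool.Agent.RBM.TorP

/-!
# RBH/ClM: closed and open subsets of `P`   (difficulty 2)

* `box_closed`: the set is the image of the compact set `{‖z‖ ≤ r₀} × [-s₀, s₀] × [0, 1]` under `b` (period 1 in `t`: `box_int`, `Int.fract`), `b` is
  continuous at its points (`h.loc`, `CSG.ld_continuousAt`), `IsCompact.isClosed` in a `T2` space.
* `tube_closed`: the same with `κ`, `{0 ≤ l ≤ 1} × {‖v‖ ≤ r₀} × [0, 1]` (`kap_int`).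
* `tube_open`, `box_open`: `CSG.ld_image_nhds`.
* `tube_cases`: `p = κ (l, v, t)`.  If `Rest l` the second case.  Otherwise `l` is in a window (`RSG.strand_all` or directly: there is `k` with
  `|l - 1/4 - k| < 1/16` or `|l - 3/4 - k| < 1/16`), and `kap_int`, `h.strand₁/₂` give `κ (l, v, t) = b (δ + cj ε v / 2, 16 ε l', t)`, `‖z‖ < 3/2`, `|s| < 1`.
* `rest_box`: `h.rest`.  `box_new`: `box_torus` for `h` and `h'`: both sides say `z = 1 ∨ z = -1`.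
* `win_eq`: a point of the tube which lies in the box: `κ (l, v, t) = b (z, s, t')` with `‖z‖ < 4`, `|s| < 1`: then `l` is in a window (otherwise `h.rest`), `κ (l, v, t) =
  b (δ + cj ε v/2, 16 ε l', t)`, `κ' (l, v, t) = b' (δ + cj ε v/2, 16 ε l', t)` (the signs are the same for `κ` and `κ'`), `box.inj`: `(z, s)` is this point, `t' = t + m`, and `b'`
  has period 1.
* `bk_tube`: if `κ' (l, v, t) ∉ BoxS b'` then `Rest l` (otherwise `strand'`).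
-/

open scoped Manifold ContDiff Topology
open Set Filter
open Complex (I)
open Pool.Agent.RSG (E4 S4 ex cj c1 c2 ht fh Vx)
open Pool.Agent.RBM

namespace Pool.Agent.RBH

variable {E : Type*} [NormedAddCommGroup E] [NormedSpace ℝ E] {H : Type*} [TopologicalSpace H]
  {J : ModelWithCorners ℝ E H}
  {P : Type*} [TopologicalSpace P] [ChartedSpace H P] {κ κ' : ℝ × ℂ × ℝ → P} {b b' : ℂ × ℝ × ℝ → P}
  {X : Type*} [TopologicalSpace X] [ChartedSpace E4 X] {n j : ℤ} {ε₁ ε₂ σ δ : ℝ} {τ : ℝ → ℝ}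
  {G : Equiv.Perm P}

theorem ClM_win (h : Bundle J κ b ε₁ ε₂) (h' : Bundle J κ' b' ε₁ ε₂) (l : ℝ) {v : ℂ} (t : ℝ)
    (hv : ‖v‖ < 1) :
    (∃ (z : ℂ) (s : ℝ), ‖z‖ < 3 / 2 ∧ |s| < 1 ∧ κ (l, v, t) = b (z, s, t) ∧
      κ' (l, v, t) = b' (z, s, t)) ∨ Rest l := by
  rcases RSG.strand_all l with ⟨d, l', k, hd, hl', rfl⟩ | h2
  · left
    obtain ⟨ε, hε, e1, e2, hst⟩ := strand_eq h hd
    obtain ⟨ε', hε', e1', e2', hst'⟩ := strand_eq h' hd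
    have hee : ε' = ε := by
      rcases hd with hd | hd
      · rw [e1 hd, e1' hd]
      · rw [e2 hd, e2' hd]
    subst hee
    refine ⟨d + cj ε' v / 2, 16 * ε' * l', RSG.FKn_norm hd hε hv, ?_, ?_, ?_⟩
    · have hε' : |ε'| = 1 := by rcases hε with rfl | rfl <;> simp
      rw [abs_mul, abs_mul, hε', abs_of_pos (by norm_num : (0 : ℝ) < 16)]
      linarith
    · have h1 : κ (1 / 2 - d / 4 + l' + k, v, t) = κ (1 / 2 - d / 4 + l', v, t) := by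
        have := kap_int h.thick (1 / 2 - d / 4 + l') v t k 0
        simpa using this
      rw [h1, hst l' v t hl' hv]
    · have h1 : κ' (1 / 2 - d / 4 + l' + k, v, t) = κ' (1 / 2 - d / 4 + l', v, t) := by
        have := kap_int h'.thick (1 / 2 - d / 4 + l') v t k 0
        simpa using this
      rw [h1, hst' l' v t hl' hv]
  · exact Or.inr h2

theorem box_closed [T2Space P] (h : Box J b 4) {r₀ s₀ : ℝ} (hr : r₀ < 4) (hs : s₀ < 1) :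
    IsClosed {p : P | ∃ (z : ℂ) (s t : ℝ), ‖z‖ ≤ r₀ ∧ |s| ≤ s₀ ∧ p = b (z, s, t)} := by
  have h1 : {p : P | ∃ (z : ℂ) (s t : ℝ), ‖z‖ ≤ r₀ ∧ |s| ≤ s₀ ∧ p = b (z, s, t)} =
      b '' (Metric.closedBall (0 : ℂ) r₀ ×ˢ (Icc (-s₀) s₀ ×ˢ Icc (0 : ℝ) 1)) := by
    ext p
    constructor
    · rintro ⟨z, s, t, hz, hs, rfl⟩
      refine ⟨(z, s, Int.fract t), ⟨by simpa using hz, abs_le.1 hs, Int.fract_nonneg t,
        (Int.fract_lt_one t).le⟩, ?_⟩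
      have h2 := box_int h z s (Int.fract t) ⌊t⌋
      rw [Int.fract_add_floor] at h2
      exact h2.symm
    · rintro ⟨⟨z, s, t⟩, ⟨hz, hs, ht⟩, rfl⟩
      exact ⟨z, s, t, by simpa using hz, abs_le.2 hs, rfl⟩
  rw [h1]
  apply IsCompact.isClosed
  apply IsCompact.image_of_continuousOn
  · exact (isCompact_closedBall 0 r₀).prod (isCompact_Icc.prod isCompact_Icc)
  · rintro ⟨z, s, t⟩ ⟨hz, hs', ht⟩
    exact (CSG.ld_continuousAt (h.loc z s t (lt_of_le_of_lt (by simpa using hz) hr)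
      (lt_of_le_of_lt (abs_le.2 hs') hs))).continuousWithinAt

theorem tube_closed [T2Space P] (h : ThickT J κ) {r₀ : ℝ} (hr : r₀ < 1) :
    IsClosed {p : P | ∃ (l : ℝ) (v : ℂ) (t : ℝ), ‖v‖ ≤ r₀ ∧ p = κ (l, v, t)} := by
  have h1 : {p : P | ∃ (l : ℝ) (v : ℂ) (t : ℝ), ‖v‖ ≤ r₀ ∧ p = κ (l, v, t)} =
      κ '' (Icc (0 : ℝ) 1 ×ˢ (Metric.closedBall (0 : ℂ) r₀ ×ˢ Icc (0 : ℝ) 1)) := by
    ext p
    constructor
    · rintro ⟨l, v, t, hv, rfl⟩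
      refine ⟨(Int.fract l, v, Int.fract t), ⟨⟨Int.fract_nonneg l, (Int.fract_lt_one l).le⟩,
        by simpa using hv, Int.fract_nonneg t, (Int.fract_lt_one t).le⟩, ?_⟩
      have h2 := kap_int h (Int.fract l) v (Int.fract t) ⌊l⌋ ⌊t⌋
      rw [Int.fract_add_floor, Int.fract_add_floor] at h2
      exact h2.symm
    · rintro ⟨⟨l, v, t⟩, ⟨hl, hv, ht⟩, rfl⟩
      exact ⟨l, v, t, by simpa using hv, rfl⟩
  rw [h1]
  apply IsCompact.isClosed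
  apply IsCompact.image_of_continuousOn
  · exact isCompact_Icc.prod ((isCompact_closedBall 0 r₀).prod isCompact_Icc)
  · rintro ⟨l, v, t⟩ ⟨hl, hv, ht⟩
    exact (CSG.ld_continuousAt (h.loc l v t (lt_of_le_of_lt (by simpa using hv) hr))).continuousWithinAt

theorem torus_closed [T2Space P] (h : ThickT J κ) : IsClosed {p : P | OnT κ p} := by
  have h1 : {p : P | OnT κ p} = {p : P | ∃ (l : ℝ) (v : ℂ) (t : ℝ), ‖v‖ ≤ 0 ∧ p = κ (l, v, t)} := by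
    ext p
    constructor
    · rintro ⟨l, t, rfl⟩
      exact ⟨l, 0, t, by simp, rfl⟩
    · rintro ⟨l, v, t, hv, rfl⟩
      have hv0 : v = 0 := norm_le_zero_iff.1 hv
      subst hv0
      exact ⟨l, t, rfl⟩
  rw [h1]
  exact tube_closed h one_pos

theorem tube_open (h : ThickT J κ) : IsOpen (Tube κ) := by
  rw [isOpen_iff_mem_nhds]
  rintro _ ⟨l, v, t, hv, rfl⟩
  have h0 : IsOpen {x : ℝ × ℂ × ℝ | ‖x.2.1‖ < 1} := isOpen_lt (by fun_prop) continuous_const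
  have h1 : {x : ℝ × ℂ × ℝ | ‖x.2.1‖ < 1} ∈ 𝓝 (l, v, t) := h0.mem_nhds hv
  refine mem_of_superset (CSG.ld_image_nhds (h.loc l v t hv) h1) ?_
  rintro _ ⟨⟨l', v', t'⟩, hx, rfl⟩
  exact ⟨l', v', t', hx, rfl⟩

theorem box_open (h : Box J b 4) : IsOpen (BoxS b) := by
  rw [isOpen_iff_mem_nhds]
  rintro _ ⟨z, s, t, hz, hs, rfl⟩
  have ha : IsOpen {x : ℂ × ℝ × ℝ | ‖x.1‖ < 4} := isOpen_lt (by fun_prop) continuous_const
  have hb : IsOpen {x : ℂ × ℝ × ℝ | |x.2.1| < 1} := isOpen_lt (by fun_prop) continuous_const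
  have h0 : IsOpen {x : ℂ × ℝ × ℝ | ‖x.1‖ < 4 ∧ |x.2.1| < 1} := ha.inter hb
  have h1 : {x : ℂ × ℝ × ℝ | ‖x.1‖ < 4 ∧ |x.2.1| < 1} ∈ 𝓝 (z, s, t) := h0.mem_nhds ⟨hz, hs⟩
  refine mem_of_superset (CSG.ld_image_nhds (h.loc z s t hz hs) h1) ?_
  rintro _ ⟨⟨z', s', t'⟩, hx, rfl⟩
  exact ⟨z', s', t', hx.1, hx.2, rfl⟩

theorem tube_cases (h : Bundle J κ b ε₁ ε₂) {p : P} (hp : p ∈ Tube κ) :
    (∃ (z : ℂ) (s t : ℝ), ‖z‖ < 3 / 2 ∧ |s| < 1 ∧ p = b (z, s, t)) ∨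
      ∃ (l : ℝ) (v : ℂ) (t : ℝ), ‖v‖ < 1 ∧ Rest l ∧ p = κ (l, v, t) := by
  obtain ⟨l, v, t, hv, rfl⟩ := hp
  rcases ClM_win h h l t hv with ⟨z, s, hz, hs, h1, -⟩ | h2
  · exact Or.inl ⟨z, s, t, hz, hs, h1⟩
  · exact Or.inr ⟨l, v, t, hv, h2, rfl⟩

theorem rest_box (h : Bundle J κ b ε₁ ε₂) {l : ℝ} {v : ℂ} {t : ℝ} (hv : ‖v‖ < 1) (hl : Rest l) :
    κ (l, v, t) ∉ BoxS b := by
  rintro ⟨z, s, t', hz, hs, he⟩
  exact h.rest l v t hv hl z s t' hz hs he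

theorem torus_tube {p : P} (h : OnT κ p) : p ∈ Tube κ := by
  obtain ⟨l, t, rfl⟩ := h
  exact ⟨l, 0, t, by simp, rfl⟩

/-- a point of the box is on the new torus iff the old point is on the old torus -/
theorem box_new (h : Bundle J κ b ε₁ ε₂) (h' : Bundle J κ' b' ε₁ ε₂) {z : ℂ} {s t : ℝ} (hz : ‖z‖ < 4)
    (hs : |s| < 1) : OnT κ' (b' (z, s, t)) ↔ OnT κ (b (z, s, t)) := by
  rw [box_torus h hz hs, box_torus h' hz hs]

theorem ClM_one (h : Bundle J κ b ε₁ ε₂) (h' : Bundle J κ' b' ε₁ ε₂) {l : ℝ} {v : ℂ} {t : ℝ} (hv : ‖v‖ < 1)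
    {z : ℂ} {s t' : ℝ} (hz : ‖z‖ < 4) (hs : |s| < 1) (he : κ (l, v, t) = b (z, s, t')) :
    κ' (l, v, t) = b' (z, s, t') := by
  rcases ClM_win h h' l t hv with ⟨z0, s0, hz0, hs0, h1, h2⟩ | h2
  · rw [h1] at he
    obtain ⟨e1, e2, m, e3⟩ := h.box.inj _ _ _ _ _ _ (by linarith) hs0 hz hs he
    rw [h2, e3, box_int h'.box, e1, e2]
  · exact absurd he (h.rest l v t hv h2 z s t' hz hs)

theorem win_eq (h : Bundle J κ b ε₁ ε₂) (h' : Bundle J κ' b' ε₁ ε₂) {l : ℝ} {v : ℂ} {t : ℝ} (hv : ‖v‖ < 1)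
    {z : ℂ} {s t' : ℝ} (hz : ‖z‖ < 4) (hs : |s| < 1) :
    κ (l, v, t) = b (z, s, t') ↔ κ' (l, v, t) = b' (z, s, t') :=
  ⟨fun he => ClM_one h h' hv hz hs he, fun he => ClM_one h' h hv hz hs he⟩

theorem bk_tube (h' : Bundle J κ' b' ε₁ ε₂) {l : ℝ} {v : ℂ} {t : ℝ} (hv : ‖v‖ < 1)
    (hp : κ' (l, v, t) ∉ BoxS b') : Rest l := by
  rcases ClM_win h' h' l t hv with ⟨z, s, hz, hs, h1, -⟩ | h2
  · exact absurd ⟨z, s, t, by linarith, hs, h1⟩ hp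
  · exact h2

end Pool.Agent.RBH
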