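import Pool.Agent.RBM.JmB
import Pool.Agent.RBM.LdS

/-!
# RBH/Defs: the ribbon homotopy theorem, definitions

`κ` a thick torus, `b` a box in which it consists of two straight strands (`Bundle`).  `κ'`, `b'` the same kind of data.  `G` is a
diffeomorphism of `P` with `G κ = κ'` outside the windows, `G b = b'` on the two ends `1/2 ≤ |s|` of the box, and on (a neighbourhood
of) the hole `‖z‖ ≤ 3`, `|frc (t - τ s)| ≥ 1/2 - δ` of `Jm`.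
THEOREM (RBH/Main): `TwinP κ n j X → TwinP κ' n j X`.
-/

open scoped Manifold ContDiff Topology
open Set Filter
open Complex (I)
open Pool.Agent.RSG (E4 S4 ex cj c1 c2 ht fh Vx)
open Pool.Agent.RBM

namespace Pool.Agent.RBH

/-- the parameters outside the two windows -/
def Rest (l : ℝ) : Prop := ∀ k : ℤ, 1 / 16 ≤ |l - 1 / 4 - k| ∧ 1 / 16 ≤ |l - 3 / 4 - k|

section defs
variable {E : Type*} [NormedAddCommGroup E] [NormedSpace ℝ E] {H : Type*} [TopologicalSpace H]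
  (J : ModelWithCorners ℝ E H)
  {P : Type*} [TopologicalSpace P] [ChartedSpace H P]

/-- data of the ribbon homotopy theorem -/
structure RibHom (κ κ' : ℝ × ℂ × ℝ → P) (b b' : ℂ × ℝ × ℝ → P) (ε₁ ε₂ : ℝ) (τ : ℝ → ℝ) (δ : ℝ)
    (G : Equiv.Perm P) : Prop where
  bun : Bundle J κ b ε₁ ε₂
  bun' : Bundle J κ' b' ε₁ ε₂
  tau : ContDiff ℝ ∞ τ
  pos : 0 < δ
  G_ld : ∀ p, IsLocalDiffeomorphAt J J ∞ G p
  G_rest : ∀ (l : ℝ) (v : ℂ) (t : ℝ), ‖v‖ < 1 → Rest l → G (κ (l, v, t)) = κ' (l, v, t)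
  G_ends : ∀ (z : ℂ) (s t : ℝ), ‖z‖ < 4 → 1 / 2 ≤ |s| → |s| < 1 → G (b (z, s, t)) = b' (z, s, t)
  G_hole : ∀ (z : ℂ) (s t : ℝ), ‖z‖ ≤ 13 / 4 → |s| < 1 → 1 / 2 - 2 * δ ≤ |frc (t - τ s)| →
    G (b (z, s, t)) = b' (z, s, t)

end defs

section maps
variable {E : Type*} [NormedAddCommGroup E] [NormedSpace ℝ E] {H : Type*} [TopologicalSpace H]
  {J : ModelWithCorners ℝ E H}
  {P : Type*} [TopologicalSpace P] [ChartedSpace H P]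
  {X : Type*} [TopologicalSpace X] [ChartedSpace E4 X] {κ : ℝ × ℂ × ℝ → P} {n j : ℤ}

/-- the open tube -/
def Tube (κ : ℝ × ℂ × ℝ → P) : Set P := {p | ∃ (l : ℝ) (v : ℂ) (t : ℝ), ‖v‖ < 1 ∧ p = κ (l, v, t)}

/-- the open box -/
def BoxS (b : ℂ × ℝ × ℝ → P) : Set P := {p | ∃ (z : ℂ) (s t : ℝ), ‖z‖ < 4 ∧ |s| < 1 ∧ p = b (z, s, t)}

/-- `J` on `P`: the map `Jm` on the part `|s| < 3/4` of the box, `D.A` elsewhere -/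
noncomputable def Jt (D : TwinP J κ n j X) (b : ℂ × ℝ × ℝ → P) (ε₁ ε₂ σ : ℝ) (τ : ℝ → ℝ)
    (p : P) : X :=
  open Classical in
  if h : ∃ a : ℂ × ℝ × ℝ, ‖a.1‖ < 4 ∧ |a.2.1| < 3 / 4 ∧ p = b a then Jm D b ε₁ ε₂ σ τ h.choose
  else D.A p

/-- points where `Jt` is good: the part `|s| < 3/4` of the box without the hole, and the points outside the box and
the tube -/
def Good (κ : ℝ × ℂ × ℝ → P) (b : ℂ × ℝ × ℝ → P) (τ : ℝ → ℝ) (δ : ℝ) : Set P :=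
  {p | (∃ a ∈ DomJ τ δ, |a.2.1| < 3 / 4 ∧ p = b a) ∨ (p ∉ Tube κ ∧ p ∉ BoxS b)}

/-- `x` is in the image of the part `|s| < 3/4` of `Jm` -/
def IsJ (D : TwinP J κ n j X) (b : ℂ × ℝ × ℝ → P) (ε₁ ε₂ σ : ℝ) (τ : ℝ → ℝ) (δ : ℝ) (x : X) : Prop :=
  ∃ a ∈ DomJ τ δ, |a.2.1| < 3 / 4 ∧ x = Jm D b ε₁ ε₂ σ τ a

/-- the map `Γ` of `X` -/
noncomputable def Gm (D : TwinP J κ n j X) (b b' : ℂ × ℝ × ℝ → P) (ε₁ ε₂ σ : ℝ) (τ : ℝ → ℝ) (δ : ℝ)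
    (G : Equiv.Perm P) (x : X) : X :=
  open Classical in
  if h : IsJ D b ε₁ ε₂ σ τ δ x then Jt D b ε₁ ε₂ σ τ (G.symm (b' h.choose)) else x

/-- the points of `X` to which `Γ` will be applied -/
def Old (D : TwinP J κ n j X) (b : ℂ × ℝ × ℝ → P) : Set X :=
  {x | (∃ p, ¬ OnT κ p ∧ (p ∈ BoxS b ∨ p ∈ Tube κ) ∧ x = D.A p) ∨ ∃ z : S4, fh z ≠ 0 ∧ x = D.Q z}

/-- the new map `A'` -/
noncomputable def Ap (D : TwinP J κ n j X) (κ' : ℝ × ℂ × ℝ → P) (b b' : ℂ × ℝ × ℝ → P) (ε₁ ε₂ σ : ℝ)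
    (τ : ℝ → ℝ) (δ : ℝ) (G : Equiv.Perm P) (p : P) : X :=
  open Classical in
  if h : ∃ a : ℂ × ℝ × ℝ, ‖a.1‖ < 4 ∧ |a.2.1| < 1 ∧ p = b' a then
    Gm D b b' ε₁ ε₂ σ τ δ G (D.A (b h.choose))
  else if p ∈ Tube κ' then Gm D b b' ε₁ ε₂ σ τ δ G (D.A (G.symm p))
  else Jt D b ε₁ ε₂ σ τ (G.symm p)

/-- what is really met by the disc -/
def Inn2 (D : TwinP J κ n j X) (b : ℂ × ℝ × ℝ → P) : Set X :=
  {x | (∃ (z : ℂ) (s t : ℝ), ‖z‖ < 5 / 2 ∧ |s| < 1 / 2 ∧ ¬ OnT κ (b (z, s, t)) ∧ x = D.A (b (z, s, t))) ∨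
    ∃ z : S4, fh z ≠ 0 ∧ 2 * ‖c1 z‖ * ‖c2 z‖ < 1 / 2 ∧ x = D.Q z}

/-- `σ` is small enough -/
structure DiscOK2 (D : TwinP J κ n j X) (b : ℂ × ℝ × ℝ → P) (ε₁ ε₂ σ : ℝ) : Prop
    extends DiscOK D b ε₁ ε₂ σ where
  inn2 : ∀ (z : ℂ) (s t : ℝ), ‖z‖ < 9 / 4 → |s| < σ → |t| < σ → hD D b ε₁ ε₂ (z, s, t) ∈ Inn2 D b

end maps

end Pool.Agent.RBH
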